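import Mathlib

/-!
A cubical Sperner lemma (mod 2 cup product proof) and the Poincaré-Miranda theorem.
-/

set_option autoImplicit false

open Finset

namespace Pool.Agent.H58.Kuhn

variable {d : ℕ}

/-- unit step in direction `s` -/
def stp (a : Fin d → ℕ) (s : Fin d) : Fin d → ℕ := Function.update a s (a s + 1)

theorem stp_comm (a : Fin d → ℕ) (s t : Fin d) : stp (stp a s) t = stp (stp a t) s := by
  unfold stp
  by_cases h : s = t
  · subst h; rfl
  · rw [Function.update_of_ne (Ne.symm h), Function.update_of_ne h, Function.update_comm h]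

/-- iterated cup product of coboundaries of the functions `l j`, `j` in the list -/
def Om (l : Fin d → (Fin d → ℕ) → ZMod 2) : List (Fin d) → (Fin d → ℕ) → Finset (Fin d) → ZMod 2
  | [], _, _ => 1
  | j :: J, a, S => ∑ s ∈ S, (l j (stp a s) + l j a) * Om l J (stp a s) (S.erase s)

theorem two_eq (x : ZMod 2) : x + x = 0 := CharTwo.add_self_eq_zero x

/-- a symmetric double sum over ordered pairs of distinct elements vanishes mod 2 -/
theorem sum_symm (T : Finset (Fin d)) (F : Fin d → Fin d → ZMod 2) (hF : ∀ s t, F s t = F t s) :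
    ∑ t ∈ T, ∑ s ∈ T.erase t, F t s = 0 := by
  have h1 : ∑ t ∈ T, ∑ s ∈ T.erase t, F t s =
      ∑ p ∈ (T ×ˢ T).filter (fun p => p.1 ≠ p.2), F p.1 p.2 := by
    rw [Finset.sum_filter, Finset.sum_product]
    refine Finset.sum_congr rfl fun t _ => ?_
    rw [← Finset.sum_filter]
    refine Finset.sum_congr ?_ fun _ _ => rfl
    ext s
    simp only [mem_erase, mem_filter]
    constructor
    · rintro ⟨h1, h2⟩; exact ⟨h2, fun h => h1 h.symm⟩
    · rintro ⟨h1, h2⟩; exact ⟨fun h => h2 h.symm, h1⟩
  rw [h1]
  refine Finset.sum_involution (fun p _ => (p.2, p.1)) ?_ ?_ ?_ ?_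
  · intro p _
    rw [hF p.2 p.1]
    exact two_eq _
  · intro p hp _ h
    rw [mem_filter] at hp
    apply hp.2
    have := congrArg Prod.fst h
    exact this.symm
  · intro p hp
    rw [mem_filter, mem_product] at hp ⊢
    exact ⟨⟨hp.1.2, hp.1.1⟩, fun h => hp.2 h.symm⟩
  · intro p _
    rfl

theorem sum_erase_comm (T : Finset (Fin d)) (F : Fin d → Fin d → ZMod 2) :
    ∑ t ∈ T, ∑ s ∈ T.erase t, F t s = ∑ s ∈ T, ∑ t ∈ T.erase s, F t s := by
  have h1 : ∀ G : Fin d → Fin d → ZMod 2, ∑ t ∈ T, ∑ s ∈ T.erase t, G t s =
      ∑ t ∈ T, ∑ s ∈ T, if t ≠ s then G t s else 0 := by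
    intro G
    refine Finset.sum_congr rfl fun t _ => ?_
    rw [← Finset.sum_filter]
    refine Finset.sum_congr ?_ fun _ _ => rfl
    ext s
    simp only [mem_erase, mem_filter]
    constructor
    · rintro ⟨h1, h2⟩; exact ⟨h2, fun h => h1 h.symm⟩
    · rintro ⟨h1, h2⟩; exact ⟨fun h => h2 h.symm, h1⟩
  rw [h1, h1 (fun s t => F t s), Finset.sum_comm]
  refine Finset.sum_congr rfl fun t _ => Finset.sum_congr rfl fun s _ => ?_
  by_cases h : s = t
  · simp [h]
  · rw [if_pos h, if_pos (Ne.symm h)]

/-- closedness -/
theorem closed (l : Fin d → (Fin d → ℕ) → ZMod 2) (J : List (Fin d)) :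
    ∀ (a : Fin d → ℕ) (T : Finset (Fin d)),
      ∑ t ∈ T, Om l J (stp a t) (T.erase t) = ∑ t ∈ T, Om l J a (T.erase t) := by
  induction J with
  | nil => intro a T; rfl
  | cons j J ih =>
    intro a T
    have e1 : ∑ t ∈ T, Om l (j :: J) (stp a t) (T.erase t) =
        ∑ t ∈ T, l j (stp a t) * ∑ s ∈ T.erase t, Om l J (stp a t) ((T.erase t).erase s) := by
      have : ∑ t ∈ T, Om l (j :: J) (stp a t) (T.erase t) =
          ∑ t ∈ T, ∑ s ∈ T.erase t, l j (stp (stp a t) s) *
            Om l J (stp (stp a t) s) ((T.erase t).erase s) +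
          ∑ t ∈ T, ∑ s ∈ T.erase t, l j (stp a t) *
            Om l J (stp (stp a t) s) ((T.erase t).erase s) := by
        rw [← Finset.sum_add_distrib]
        refine Finset.sum_congr rfl fun t _ => ?_
        rw [Om, ← Finset.sum_add_distrib]
        refine Finset.sum_congr rfl fun s _ => ?_
        rw [add_mul]
      rw [this, sum_symm T (fun t s => l j (stp (stp a t) s) *
            Om l J (stp (stp a t) s) ((T.erase t).erase s)), zero_add]
      · refine Finset.sum_congr rfl fun t _ => ?_
        rw [← Finset.mul_sum, ih (stp a t) (T.erase t)]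
      · intro s t
        rw [stp_comm a s t, Finset.erase_right_comm]
    have e2 : ∑ t ∈ T, Om l (j :: J) a (T.erase t) =
        ∑ t ∈ T, l j (stp a t) * ∑ s ∈ T.erase t, Om l J (stp a t) ((T.erase t).erase s) := by
      have : ∑ t ∈ T, Om l (j :: J) a (T.erase t) =
          ∑ t ∈ T, ∑ s ∈ T.erase t, l j (stp a s) * Om l J (stp a s) ((T.erase t).erase s) +
          ∑ t ∈ T, ∑ s ∈ T.erase t, l j a * Om l J (stp a s) ((T.erase t).erase s) := by
        rw [← Finset.sum_add_distrib]
        refine Finset.sum_congr rfl fun t _ => ?_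
        rw [Om, ← Finset.sum_add_distrib]
        refine Finset.sum_congr rfl fun s _ => ?_
        rw [add_mul]
      rw [this]
      have h2 : ∑ t ∈ T, ∑ s ∈ T.erase t, l j a * Om l J (stp a s) ((T.erase t).erase s) = 0 := by
        have : ∀ t ∈ T, ∑ s ∈ T.erase t, l j a * Om l J (stp a s) ((T.erase t).erase s) =
            ∑ s ∈ T.erase t, l j a * Om l J a ((T.erase t).erase s) := by
          intro t _
          rw [← Finset.mul_sum, ih a (T.erase t), Finset.mul_sum]
        rw [Finset.sum_congr rfl this]
        refine sum_symm T (fun t s => l j a * Om l J a ((T.erase t).erase s)) ?_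
        intro s t
        rw [Finset.erase_right_comm]
      rw [h2, add_zero, sum_erase_comm T
        (fun t s => l j (stp a s) * Om l J (stp a s) ((T.erase t).erase s))]
      refine Finset.sum_congr rfl fun t _ => ?_
      rw [Finset.mul_sum]
      refine Finset.sum_congr rfl fun s _ => ?_
      rw [Finset.erase_right_comm]
    rw [e1, e2]

/-- exactness -/
theorem exact_form (l : Fin d → (Fin d → ℕ) → ZMod 2) (j : Fin d) (J : List (Fin d))
    (a : Fin d → ℕ) (T : Finset (Fin d)) :
    Om l (j :: J) a T = ∑ t ∈ T, (l j (stp a t) * Om l J (stp a t) (T.erase t) +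
      l j a * Om l J a (T.erase t)) := by
  rw [Om, Finset.sum_add_distrib, ← Finset.mul_sum, ← closed l J a T, Finset.mul_sum,
    ← Finset.sum_add_distrib]
  refine Finset.sum_congr rfl fun t _ => ?_
  rw [add_mul]

/-- the product vanishes if one of the functions is constant on the cube -/
theorem Om_eq_zero (l : Fin d → (Fin d → ℕ) → ZMod 2) (J : List (Fin d)) (j : Fin d) (hj : j ∈ J) :
    ∀ (a : Fin d → ℕ) (S : Finset (Fin d)) (c : ZMod 2),
      (∀ x : Fin d → ℕ, (∀ k, (k ∈ S → a k ≤ x k ∧ x k ≤ a k + 1) ∧ (k ∉ S → x k = a k)) →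
        l j x = c) → J.length ≤ S.card → Om l J a S = 0 := by
  induction J with
  | nil => exact absurd hj (List.not_mem_nil)
  | cons i J ih =>
    intro a S c hc hlen
    rw [Om]
    refine Finset.sum_eq_zero fun s hs => ?_
    by_cases hij : i = j
    · subst hij
      rw [hc (stp a s), hc a, two_eq, zero_mul]
      · intro k
        constructor
        · intro _; constructor <;> omega
        · intro _; rfl
      · intro k
        unfold stp
        by_cases hk : k = s
        · subst hk
          simp only [Function.update_self]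
          exact ⟨fun _ => ⟨by omega, le_refl _⟩, fun h => absurd hs h⟩
        · simp only [Function.update_of_ne hk]
          exact ⟨fun _ => ⟨le_refl _, by omega⟩, fun _ => by trivial⟩
    · have hj' : j ∈ J := by
        rcases List.mem_cons.1 hj with h | h
        · exact absurd h.symm hij
        · exact h
      rw [ih hj' (stp a s) (S.erase s) c, mul_zero]
      · intro x hx
        refine hc x fun k => ?_
        have hxk := hx k
        unfold stp at hxk
        by_cases hk : k = s
        · subst hk
          simp only [mem_erase, ne_eq, not_true, false_and, not_false_iff, true_implies,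
            Function.update_self] at hxk
          refine ⟨fun _ => ?_, fun h => absurd hs h⟩
          rw [hxk.2]
          constructor <;> omega
        · simp only [mem_erase, ne_eq, hk, not_false_iff, true_and, Function.update_of_ne] at hxk
          exact hxk
      · rw [Finset.card_erase_of_mem hs]
        simp only [List.length_cons] at hlen
        omega

/-- grid points with coordinates in `T` free in `[0,M)` and the others fixed -/
def Box (M : ℕ) (T : Finset (Fin d)) (b : Fin d → ℕ) : Finset (Fin d → ℕ) :=
  Fintype.piFinset fun k => if k ∈ T then range M else {b k}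

theorem mem_Box {M : ℕ} {T : Finset (Fin d)} {b a : Fin d → ℕ} :
    a ∈ Box M T b ↔ ∀ k, (k ∈ T → a k < M) ∧ (k ∉ T → a k = b k) := by
  unfold Box
  rw [Fintype.mem_piFinset]
  refine forall_congr' fun k => ?_
  by_cases hk : k ∈ T <;> simp [hk]

theorem sum_Box {M : ℕ} {T : Finset (Fin d)} {b : Fin d → ℕ} {t : Fin d} (ht : t ∈ T)
    (G : (Fin d → ℕ) → ZMod 2) :
    ∑ a ∈ Box M T b, G a =
      ∑ a ∈ Box M (T.erase t) (Function.update b t 0), ∑ i ∈ range M, G (Function.update a t i) := by
  rw [← Finset.sum_product']
  refine Finset.sum_bij' (fun a _ => (Function.update a t 0, a t))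
    (fun p _ => Function.update p.1 t p.2) ?_ ?_ ?_ ?_ ?_
  · intro a ha
    rw [mem_Box] at ha
    rw [mem_product]
    refine ⟨?_, mem_range.2 ((ha t).1 ht)⟩
    rw [mem_Box]
    intro k
    by_cases hk : k = t
    · subst hk; simp
    · simp only [mem_erase, ne_eq, hk, not_false_iff, true_and, Function.update_of_ne]
      exact ha k
  · rintro ⟨a, i⟩ hp
    rw [mem_product, mem_Box, mem_range] at hp
    rw [mem_Box]
    intro k
    by_cases hk : k = t
    · subst hk
      simp only [Function.update_self]
      exact ⟨fun _ => hp.2, fun h => absurd ht h⟩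
    · have := hp.1 k
      simp only [mem_erase, ne_eq, hk, not_false_iff, true_and, Function.update_of_ne] at this
      simp only [ne_eq, hk, not_false_iff, Function.update_of_ne]
      exact this
  · intro a _
    simp
  · rintro ⟨a, i⟩ hp
    rw [mem_product, mem_Box] at hp
    have h0 := (hp.1 t).2 (by simp)
    simp only [Function.update_self] at h0
    refine Prod.ext ?_ ?_
    · simp only [Function.update_idem]
      rw [← h0, Function.update_eq_self]
    · simp
  · intro a _
    simp

theorem telescope (M : ℕ) (F : ℕ → ZMod 2) : ∑ i ∈ range M, (F (i + 1) + F i) = F M + F 0 := by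
  induction M with
  | zero => simp [two_eq]
  | succ M ih =>
    rw [Finset.sum_range_succ, ih]
    have := two_eq (F M)
    calc F M + F 0 + (F (M + 1) + F M) = F (M + 1) + F 0 + (F M + F M) := by ring
      _ = F (M + 1) + F 0 := by rw [this, add_zero]

/-- total sum over the box equals `1` -/
theorem total {M : ℕ} (l : Fin d → (Fin d → ℕ) → ZMod 2)
    (h0 : ∀ j x, x j = 0 → l j x = 0) (h1 : ∀ j x, x j = M → l j x = 1) (J : List (Fin d)) :
    J.Nodup → ∀ b : Fin d → ℕ, ∑ a ∈ Box M J.toFinset b, Om l J a J.toFinset = 1 := by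
  induction J with
  | nil =>
    intro _ b
    have : Box M ([] : List (Fin d)).toFinset b = {b} := by
      ext a
      rw [mem_Box, mem_singleton]
      simp [funext_iff]
    rw [this, Finset.sum_singleton, Om]
  | cons j J ih =>
    intro hnd b
    have hj : j ∉ J := (List.nodup_cons.1 hnd).1
    have hndJ : J.Nodup := (List.nodup_cons.1 hnd).2
    set T := (j :: J).toFinset with hT
    have hTe : T.erase j = J.toFinset := by
      rw [hT, List.toFinset_cons, Finset.erase_insert (by simpa using hj)]
    have hjT : j ∈ T := by simp [hT]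
    let Θ : Fin d → (Fin d → ℕ) → ZMod 2 := fun t a => l j a * Om l J a (T.erase t)
    have e1 : ∑ a ∈ Box M T b, Om l (j :: J) a T =
        ∑ t ∈ T, ∑ a ∈ Box M T b, (Θ t (stp a t) + Θ t a) := by
      rw [Finset.sum_comm]
      refine Finset.sum_congr rfl fun a _ => ?_
      rw [exact_form]
    have e2 : ∀ t ∈ T, ∑ a ∈ Box M T b, (Θ t (stp a t) + Θ t a) =
        ∑ a ∈ Box M (T.erase t) (Function.update b t 0),
          (Θ t (Function.update a t M) + Θ t (Function.update a t 0)) := by
      intro t ht
      rw [sum_Box ht]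
      refine Finset.sum_congr rfl fun a _ => ?_
      rw [← telescope M (fun i => Θ t (Function.update a t i))]
      refine Finset.sum_congr rfl fun i _ => ?_
      congr 2
      unfold stp
      simp
    rw [e1, Finset.sum_congr rfl e2, ← Finset.add_sum_erase T _ hjT]
    have hrest : ∑ t ∈ T.erase j, ∑ a ∈ Box M (T.erase t) (Function.update b t 0),
        (Θ t (Function.update a t M) + Θ t (Function.update a t 0)) = 0 := by
      refine Finset.sum_eq_zero fun t ht => Finset.sum_eq_zero fun a _ => ?_
      rw [mem_erase] at ht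
      have htJ : t ∈ J := by
        have := ht.2
        rw [hT, List.mem_toFinset, List.mem_cons] at this
        exact this.resolve_left ht.1
      have hlen : J.length ≤ (T.erase t).card := by
        rw [Finset.card_erase_of_mem ht.2, hT, List.toFinset_card_of_nodup hnd]
        simp
      have k1 : Om l J (Function.update a t M) (T.erase t) = 0 := by
        refine Om_eq_zero l J t htJ _ _ 1 ?_ hlen
        intro x hx
        refine h1 t x ?_
        have := (hx t).2 (by simp)
        rw [this]; simp
      have k2 : Om l J (Function.update a t 0) (T.erase t) = 0 := by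
        refine Om_eq_zero l J t htJ _ _ 0 ?_ hlen
        intro x hx
        refine h0 t x ?_
        have := (hx t).2 (by simp)
        rw [this]; simp
      simp only [Θ, k1, k2, mul_zero, add_zero]
    rw [hrest, add_zero]
    have hmain : ∀ a ∈ Box M (T.erase j) (Function.update b j 0),
        (Θ j (Function.update a j M) + Θ j (Function.update a j 0)) =
          Om l J (Function.update a j M) J.toFinset := by
      intro a _
      simp only [Θ]
      rw [h1 j _ (by simp), h0 j _ (by simp), one_mul, zero_mul, add_zero, hTe]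
    rw [Finset.sum_congr rfl hmain, ← ih hndJ (Function.update b j M), hTe]
    refine Finset.sum_bij' (fun a _ => Function.update a j M) (fun a _ => Function.update a j 0)
      ?_ ?_ ?_ ?_ ?_
    · intro a ha
      rw [mem_Box] at ha ⊢
      intro k
      by_cases hk : k = j
      · subst hk
        simp only [List.mem_toFinset, Function.update_self, implies_true, and_true]
        exact fun h => absurd h hj
      · have := ha k
        simp only [ne_eq, hk, not_false_iff, Function.update_of_ne] at this ⊢
        exact this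
    · intro a ha
      rw [mem_Box] at ha ⊢
      intro k
      by_cases hk : k = j
      · subst hk
        simp only [List.mem_toFinset, Function.update_self, implies_true, and_true]
        exact fun h => absurd h hj
      · have := ha k
        simp only [ne_eq, hk, not_false_iff, Function.update_of_ne] at this ⊢
        exact this
    · intro a ha
      rw [mem_Box] at ha
      have := (ha j).2 (by simpa using hj)
      simp only [Function.update_self] at this
      simp only [Function.update_idem]
      rw [← this, Function.update_eq_self]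
    · intro a ha
      rw [mem_Box] at ha
      have := (ha j).2 (by simpa using hj)
      simp only [Function.update_self] at this
      simp only [Function.update_idem]
      rw [← this, Function.update_eq_self]
    · intro a _
      rfl

/-- **Cubical Sperner lemma.** -/
theorem exists_cube {M : ℕ} (l : Fin d → (Fin d → ℕ) → ZMod 2)
    (h0 : ∀ j x, x j = 0 → l j x = 0) (h1 : ∀ j x, x j = M → l j x = 1) :
    ∃ a : Fin d → ℕ, (∀ k, a k < M) ∧ ∀ j, ∀ c : ZMod 2,
      ∃ x : Fin d → ℕ, (∀ k, a k ≤ x k ∧ x k ≤ a k + 1) ∧ l j x ≠ c := by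
  have ht := total l h0 h1 (List.finRange d) (List.nodup_finRange d) 0
  have hne : ∑ a ∈ Box M (List.finRange d).toFinset 0,
      Om l (List.finRange d) a (List.finRange d).toFinset ≠ 0 := by
    rw [ht]; exact one_ne_zero
  obtain ⟨a, ha, hOm⟩ := Finset.exists_ne_zero_of_sum_ne_zero hne
  rw [mem_Box] at ha
  refine ⟨a, fun k => (ha k).1 (by simp), fun j c => ?_⟩
  by_contra hcon
  push Not at hcon
  apply hOm
  refine Om_eq_zero l _ j (List.mem_finRange j) a _ c ?_ ?_
  · intro x hx
    exact hcon x fun k => (hx k).1 (by simp)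
  · rw [List.toFinset_card_of_nodup (List.nodup_finRange d)]

/-- **Poincaré-Miranda theorem.** -/
theorem poincare_miranda (h : (Fin d → ℝ) → (Fin d → ℝ))
    (hc : ContinuousOn h (Set.Icc 0 1))
    (h0 : ∀ x ∈ Set.Icc (0 : Fin d → ℝ) 1, ∀ j, x j = 0 → h x j ≤ 0)
    (h1 : ∀ x ∈ Set.Icc (0 : Fin d → ℝ) 1, ∀ j, x j = 1 → 0 ≤ h x j) :
    ∃ x ∈ Set.Icc (0 : Fin d → ℝ) 1, h x = 0 := by
  classical
  -- for every scale a small cube on which every coordinate takes both signs
  let sc : ℕ → (Fin d → ℕ) → (Fin d → ℝ) := fun M x k => (x k : ℝ) / (M + 1)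
  have hsc : ∀ M (x : Fin d → ℕ), (∀ k, x k ≤ M + 1) → sc M x ∈ Set.Icc (0 : Fin d → ℝ) 1 := by
    intro M x hx
    rw [Set.mem_Icc, Pi.le_def, Pi.le_def]
    constructor
    · intro k; simp only [sc, Pi.zero_apply]; positivity
    · intro k
      simp only [sc, Pi.one_apply]
      rw [div_le_one (by positivity)]
      exact_mod_cast hx k
  have step : ∀ M : ℕ, ∃ a : Fin d → ℕ, (∀ k, a k < M + 1) ∧ ∀ j,
      (∃ x : Fin d → ℕ, (∀ k, a k ≤ x k ∧ x k ≤ a k + 1) ∧ h (sc M x) j ≤ 0) ∧
      (∃ x : Fin d → ℕ, (∀ k, a k ≤ x k ∧ x k ≤ a k + 1) ∧ 0 ≤ h (sc M x) j) := by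
    intro M
    let l : Fin d → (Fin d → ℕ) → ZMod 2 := fun j x =>
      if x j = 0 then 0 else if x j = M + 1 then 1 else if 0 < h (sc M x) j then 1 else 0
    obtain ⟨a, ha, hl⟩ := exists_cube (M := M + 1) l
      (by intro j x hx; simp only [l, if_pos hx])
      (by intro j x hx; simp only [l]; rw [if_neg (by omega), if_pos hx])
    refine ⟨a, ha, fun j => ⟨?_, ?_⟩⟩
    · obtain ⟨x, hx, hne⟩ := hl j 1
      refine ⟨x, hx, ?_⟩
      have hxin := hsc M x (fun k => by have := hx k; have := ha k; omega)
      simp only [l] at hne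
      by_cases e0 : x j = 0
      · refine h0 _ hxin j ?_
        simp only [sc, e0]; simp
      · rw [if_neg e0] at hne
        by_cases e1 : x j = M + 1
        · rw [if_pos e1] at hne; exact absurd rfl hne
        · rw [if_neg e1] at hne
          by_contra hcon
          rw [if_pos (not_le.1 hcon)] at hne
          exact hne rfl
    · obtain ⟨x, hx, hne⟩ := hl j 0
      refine ⟨x, hx, ?_⟩
      have hxin := hsc M x (fun k => by have := hx k; have := ha k; omega)
      simp only [l] at hne
      by_cases e0 : x j = 0
      · rw [if_pos e0] at hne; exact absurd rfl hne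
      · rw [if_neg e0] at hne
        by_cases e1 : x j = M + 1
        · refine h1 _ hxin j ?_
          simp only [sc, e1]; push_cast; field_simp
        · rw [if_neg e1] at hne
          by_contra hcon
          rw [if_neg (by linarith [not_le.1 hcon])] at hne
          exact hne rfl
  choose a ha hb using step
  have hcomp : IsCompact (Set.Icc (0 : Fin d → ℝ) 1) := isCompact_Icc
  obtain ⟨x, hx, φ, hφ, hlim⟩ := hcomp.tendsto_subseq
    (x := fun M => sc M (a M)) (fun M => hsc M _ fun k => (ha M k).le)
  refine ⟨x, hx, ?_⟩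
  -- all points of the cubes converge to x
  have hnear : ∀ y : ℕ → (Fin d → ℕ), (∀ M k, a M k ≤ y M k ∧ y M k ≤ a M k + 1) →
      Filter.Tendsto (fun n => sc (φ n) (y (φ n))) Filter.atTop (nhds x) := by
    intro y hy
    have hdiff : Filter.Tendsto (fun n => sc (φ n) (y (φ n)) - sc (φ n) (a (φ n)))
        Filter.atTop (nhds 0) := by
      rw [tendsto_pi_nhds]
      intro k
      have hb1 : Filter.Tendsto (fun n : ℕ => 1 / ((φ n : ℝ) + 1)) Filter.atTop (nhds 0) :=
        tendsto_one_div_add_atTop_nhds_zero_nat.comp hφ.tendsto_atTop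
      refine squeeze_zero (fun n => ?_) (fun n => ?_) hb1
      · simp only [sc, Pi.sub_apply]
        rw [← sub_div]
        have : (a (φ n) k : ℝ) ≤ y (φ n) k := by exact_mod_cast (hy (φ n) k).1
        exact div_nonneg (by linarith) (by positivity)
      · simp only [sc, Pi.sub_apply]
        rw [← sub_div]
        have : (y (φ n) k : ℝ) ≤ a (φ n) k + 1 := by exact_mod_cast (hy (φ n) k).2
        exact div_le_div_of_nonneg_right (by linarith) (by positivity)
    have := hdiff.add hlim
    simpa using this
  have hcont : ∀ y : ℕ → (Fin d → ℕ), (∀ M k, a M k ≤ y M k ∧ y M k ≤ a M k + 1) → ∀ j,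
      Filter.Tendsto (fun n => h (sc (φ n) (y (φ n))) j) Filter.atTop (nhds (h x j)) := by
    intro y hy j
    have h2 : Filter.Tendsto (fun n => sc (φ n) (y (φ n))) Filter.atTop
        (nhdsWithin x (Set.Icc 0 1)) := by
      rw [tendsto_nhdsWithin_iff]
      refine ⟨hnear y hy, Filter.Eventually.of_forall fun n => hsc _ _ fun k => ?_⟩
      have := hy (φ n) k; have := ha (φ n) k; omega
    have h3 := (hc x hx).tendsto.comp h2
    exact (tendsto_pi_nhds.1 h3) j
  funext j
  rw [Pi.zero_apply]
  refine le_antisymm ?_ ?_
  · choose y hy1 hy2 using fun M => (hb M j).1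
    exact le_of_tendsto (hcont y hy1 j) (Filter.Eventually.of_forall fun n => hy2 (φ n))
  · choose y hy1 hy2 using fun M => (hb M j).2
    exact ge_of_tendsto (hcont y hy1 j) (Filter.Eventually.of_forall fun n => hy2 (φ n))

/-- Brouwer's fixed point theorem for the cube -/
theorem brouwer_cube {d : ℕ} (f : (Fin d → ℝ) → (Fin d → ℝ))
    (hf : ContinuousOn f (Set.Icc 0 1)) (hm : Set.MapsTo f (Set.Icc 0 1) (Set.Icc 0 1)) :
    ∃ x ∈ Set.Icc (0 : Fin d → ℝ) 1, f x = x := by
  obtain ⟨x, hx, h0⟩ := poincare_miranda (fun x => x - f x) (continuousOn_id.sub hf)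
    (fun x hx j hj => by
      have := (hm hx).1 j
      simp only [Pi.zero_apply] at this
      simp only [Pi.sub_apply, hj]; linarith)
    (fun x hx j hj => by
      have := (hm hx).2 j
      simp only [Pi.one_apply] at this
      simp only [Pi.sub_apply, hj]; linarith)
  exact ⟨x, hx, (sub_eq_zero.1 h0).symm⟩

end Pool.Agent.H58.Kuhn
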