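import Mathlib

/-!
Extension properties of spaces: every map of a sphere extends over the ball.
-/

set_option autoImplicit false

open Set Metric

namespace Pool.Agent.H58

/-- Every continuous map from the unit sphere of the normed space `E` into `Y` extends to a
continuous map of the closed unit ball into `Y`. -/
def ExtN (E : Type*) [NormedAddCommGroup E] [NormedSpace ℝ E] {α : Type*} [TopologicalSpace α]
    (Y : Set α) : Prop :=
  ∀ f : E → α, ContinuousOn f (sphere (0 : E) 1) → MapsTo f (sphere (0 : E) 1) Y →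
    ∃ g : E → α, ContinuousOn g (closedBall (0 : E) 1) ∧ MapsTo g (closedBall (0 : E) 1) Y ∧
      EqOn g f (sphere (0 : E) 1)

/-- Every continuous map from the unit sphere of `ℝᵐ` into `Y` extends to a continuous map of the
closed unit ball into `Y`. -/
def Ext (m : ℕ) {α : Type*} [TopologicalSpace α] (Y : Set α) : Prop :=
  ∀ f : EuclideanSpace ℝ (Fin m) → α,
    ContinuousOn f (sphere (0 : EuclideanSpace ℝ (Fin m)) 1) →
    MapsTo f (sphere (0 : EuclideanSpace ℝ (Fin m)) 1) Y →
    ∃ g : EuclideanSpace ℝ (Fin m) → α,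
      ContinuousOn g (closedBall (0 : EuclideanSpace ℝ (Fin m)) 1) ∧
      MapsTo g (closedBall (0 : EuclideanSpace ℝ (Fin m)) 1) Y ∧
      EqOn g f (sphere (0 : EuclideanSpace ℝ (Fin m)) 1)

theorem ext_iff_extN (m : ℕ) {α : Type*} [TopologicalSpace α] (Y : Set α) :
    Ext m Y ↔ ExtN (EuclideanSpace ℝ (Fin m)) Y := Iff.rfl

section norms

variable {E F : Type*} [NormedAddCommGroup E] [NormedSpace ℝ E]
  [NormedAddCommGroup F] [NormedSpace ℝ F]

/-- the radial map between two normed spaces -/
noncomputable def radial (L : E ≃L[ℝ] F) (x : E) : F := (‖x‖ / ‖L x‖) • L x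

theorem norm_radial (L : E ≃L[ℝ] F) (x : E) : ‖radial L x‖ = ‖x‖ := by
  unfold radial
  rcases eq_or_ne x 0 with h | h
  · subst h; simp
  · have : ‖L x‖ ≠ 0 := by
      rw [norm_ne_zero_iff]
      intro h'
      exact h (by simpa using h')
    rw [norm_smul, Real.norm_eq_abs, abs_div, abs_norm, abs_norm, div_mul_cancel₀ _ this]

theorem continuous_radial (L : E ≃L[ℝ] F) : Continuous (radial L) := by
  rw [continuous_iff_continuousAt]
  intro x
  rcases eq_or_ne x 0 with h | h
  · subst h
    rw [ContinuousAt]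
    have h0 : radial L 0 = 0 := by simp [radial]
    rw [h0, tendsto_zero_iff_norm_tendsto_zero]
    have : (fun x => ‖radial L x‖) = fun x => ‖x‖ := by
      funext x; exact norm_radial L x
    rw [this]
    have := (continuous_norm (E := E)).tendsto 0
    simpa using this
  · have hL : ‖L x‖ ≠ 0 := by
      rw [norm_ne_zero_iff]
      intro h'
      exact h (by simpa using h')
    unfold radial
    refine ContinuousAt.smul ?_ L.continuous.continuousAt
    exact ContinuousAt.div continuous_norm.continuousAt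
      (L.continuous.norm.continuousAt) hL

theorem extN_of_equiv (L : E ≃L[ℝ] F) {α : Type*} [TopologicalSpace α] {Y : Set α}
    (h : ExtN F Y) : ExtN E Y := by
  intro f hf hfY
  obtain ⟨g, hg, hgY, hgf⟩ := h (f ∘ radial L.symm)
    (hf.comp (continuous_radial L.symm).continuousOn (fun y hy => by
      rw [mem_sphere_zero_iff_norm] at hy ⊢; rw [norm_radial, hy]))
    (fun y hy => hfY (by
      rw [mem_sphere_zero_iff_norm] at hy ⊢; rw [norm_radial, hy]))
  refine ⟨g ∘ radial L, hg.comp (continuous_radial L).continuousOn (fun x hx => ?_),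
    fun x hx => hgY ?_, fun x hx => ?_⟩
  · rw [mem_closedBall_zero_iff] at hx ⊢; rwa [norm_radial]
  · rw [mem_closedBall_zero_iff] at hx ⊢; rwa [norm_radial]
  · have hx1 : ‖x‖ = 1 := by rwa [mem_sphere_zero_iff_norm] at hx
    have hL : ‖L x‖ ≠ 0 := by
      rw [norm_ne_zero_iff]
      intro h'
      have : x = 0 := by simpa using h'
      rw [this, norm_zero] at hx1
      exact zero_ne_one hx1
    have : radial L x ∈ sphere (0 : F) 1 := by
      rw [mem_sphere_zero_iff_norm, norm_radial, hx1]
    rw [Function.comp_apply, hgf this, Function.comp_apply]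
    congr 1
    unfold radial
    rw [hx1, map_smul, ContinuousLinearEquiv.symm_apply_apply, norm_smul, norm_smul,
      Real.norm_eq_abs, abs_div, abs_one, abs_norm, hx1, mul_one, one_div, inv_mul_cancel₀ hL]
    rw [smul_smul, one_div, inv_inv, mul_inv_cancel₀ hL, one_smul]

theorem extN_congr (L : E ≃L[ℝ] F) {α : Type*} [TopologicalSpace α] {Y : Set α} :
    ExtN E Y ↔ ExtN F Y :=
  ⟨fun h => extN_of_equiv L.symm h, fun h => extN_of_equiv L h⟩

end norms

/-- sup-norm version -/
theorem ext_iff_pi (m : ℕ) {α : Type*} [TopologicalSpace α] (Y : Set α) :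
    Ext m Y ↔ ExtN (Fin m → ℝ) Y :=
  extN_congr (EuclideanSpace.equiv (Fin m) ℝ)

/-- If `f` is homotopic on the sphere, inside `Y`, to a map which extends over the ball, then `f`
extends over the ball. -/
theorem extend_of_homotopy {E : Type*} [NormedAddCommGroup E] [NormedSpace ℝ E] {α : Type*}
    [TopologicalSpace α] {Y : Set α} (f : E → α) (H : ℝ → E → α)
    (hH : ContinuousOn (fun p : ℝ × E => H p.1 p.2) (Icc (0 : ℝ) 1 ×ˢ sphere (0 : E) 1))
    (hHY : ∀ t ∈ Icc (0 : ℝ) 1, ∀ x ∈ sphere (0 : E) 1, H t x ∈ Y)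
    (h0 : EqOn (H 0) f (sphere (0 : E) 1))
    (g : E → α) (hg : ContinuousOn g (closedBall (0 : E) 1))
    (hgY : MapsTo g (closedBall (0 : E) 1) Y) (h1 : EqOn g (H 1) (sphere (0 : E) 1)) :
    ∃ g' : E → α, ContinuousOn g' (closedBall (0 : E) 1) ∧ MapsTo g' (closedBall (0 : E) 1) Y ∧
      EqOn g' f (sphere (0 : E) 1) := by
  classical
  let g' : E → α := fun x => if ‖x‖ ≤ 1 / 2 then g ((2 : ℝ) • x)
    else H (2 - 2 * ‖x‖) (‖x‖⁻¹ • x)
  have hin : ∀ x : E, ‖x‖ ≤ 1 / 2 → (2 : ℝ) • x ∈ closedBall (0 : E) 1 := by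
    intro x hx
    rw [mem_closedBall_zero_iff, norm_smul, Real.norm_eq_abs, abs_of_pos (by norm_num : (0:ℝ) < 2)]
    linarith
  have hun : ∀ x : E, 1 / 2 ≤ ‖x‖ → ‖x‖⁻¹ • x ∈ sphere (0 : E) 1 := by
    intro x hx
    have : ‖x‖ ≠ 0 := by linarith
    rw [mem_sphere_zero_iff_norm, norm_smul, norm_inv, norm_norm, inv_mul_cancel₀ this]
  have htt : ∀ x : E, 1 / 2 ≤ ‖x‖ → ‖x‖ ≤ 1 → 2 - 2 * ‖x‖ ∈ Icc (0 : ℝ) 1 := by
    intro x hx hx'
    constructor <;> linarith
  -- on the overlap the two formulas agree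
  have hov : ∀ x : E, ‖x‖ = 1 / 2 → g ((2 : ℝ) • x) = H (2 - 2 * ‖x‖) (‖x‖⁻¹ • x) := by
    intro x hx
    have h2 : (2 : ℝ) • x = ‖x‖⁻¹ • x := by rw [hx]; norm_num
    have h3 : (2 : ℝ) - 2 * ‖x‖ = 1 := by rw [hx]; norm_num
    rw [h3, h2]
    exact h1 (hun x (by rw [hx]))
  refine ⟨g', ?_, ?_, ?_⟩
  · have hA : ContinuousOn g' (closedBall (0 : E) (1 / 2)) := by
      have : ContinuousOn (fun x : E => g ((2 : ℝ) • x)) (closedBall (0 : E) (1 / 2)) := by
        refine hg.comp (continuous_const_smul _).continuousOn ?_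
        intro x hx
        exact hin x (by rwa [mem_closedBall_zero_iff] at hx)
      refine this.congr ?_
      intro x hx
      rw [mem_closedBall_zero_iff] at hx
      simp only [g', if_pos hx]
    have hB : ContinuousOn g' {x : E | 1 / 2 ≤ ‖x‖ ∧ ‖x‖ ≤ 1} := by
      have : ContinuousOn (fun x : E => H (2 - 2 * ‖x‖) (‖x‖⁻¹ • x))
          {x : E | 1 / 2 ≤ ‖x‖ ∧ ‖x‖ ≤ 1} := by
        have hc : ContinuousOn (fun x : E => ((2 - 2 * ‖x‖, ‖x‖⁻¹ • x) : ℝ × E))
            {x : E | 1 / 2 ≤ ‖x‖ ∧ ‖x‖ ≤ 1} := by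
          refine ContinuousOn.prodMk ?_ ?_
          · exact (continuous_const.sub (continuous_const.mul continuous_norm)).continuousOn
          · refine ContinuousOn.smul ?_ continuousOn_id
            refine ContinuousOn.inv₀ continuous_norm.continuousOn ?_
            intro x hx
            have := hx.1
            linarith
        refine hH.comp hc ?_
        intro x hx
        exact ⟨htt x hx.1 hx.2, hun x hx.1⟩
      refine this.congr ?_
      intro x hx
      rcases eq_or_lt_of_le hx.1 with h | h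
      · simp only [g']
        rw [if_pos (le_of_eq h.symm)]
        exact hov x h.symm
      · simp only [g']
        rw [if_neg (not_le.mpr h)]
    have hunion : closedBall (0 : E) 1 =
        closedBall (0 : E) (1 / 2) ∪ {x : E | 1 / 2 ≤ ‖x‖ ∧ ‖x‖ ≤ 1} := by
      ext x
      simp only [mem_closedBall_zero_iff, mem_union, mem_setOf_eq]
      constructor
      · intro h
        rcases le_total ‖x‖ (1 / 2) with h' | h'
        · exact Or.inl h'
        · exact Or.inr ⟨h', h⟩
      · rintro (h | h)
        · linarith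
        · exact h.2
    rw [hunion]
    refine hA.union_of_isClosed hB isClosed_closedBall ?_
    exact (isClosed_le continuous_const continuous_norm).inter
      (isClosed_le continuous_norm continuous_const)
  · intro x hx
    rw [mem_closedBall_zero_iff] at hx
    simp only [g']
    split_ifs with h
    · exact hgY (hin x h)
    · exact hHY _ (htt x (not_le.mp h).le hx) _ (hun x (not_le.mp h).le)
  · intro x hx
    have hx1 : ‖x‖ = 1 := by rwa [mem_sphere_zero_iff_norm] at hx
    have : ¬ ‖x‖ ≤ 1 / 2 := by rw [hx1]; norm_num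
    simp only [g', if_neg this]
    rw [hx1]
    have := h0 hx
    norm_num
    exact this

end Pool.Agent.H58
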