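import Pool.Agent.H58.Grid

/-!
The union lemma: if `A`, `B` are subcomplexes which are `(n-1)`-connected and `A ∩ B` is
`(n-2)`-connected then `A ∪ B` is `(n-1)`-connected.
-/

set_option autoImplicit false

open Set Metric

namespace Pool.Agent.H58

variable {m : ℕ}

/-- the box `[0,N]ᵐ` -/
def box (m N : ℕ) : Set (Fin m → ℝ) := {x | ∀ j, 0 ≤ x j ∧ x j ≤ N}

/-- the boundary of the box `[0,N]ᵐ` -/
def bbd (m N : ℕ) : Set (Fin m → ℝ) := {x | x ∈ box m N ∧ ∃ j, x j = 0 ∨ x j = N}

/-- the cell containing `x` in its relative interior -/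
noncomputable def fcell (x : Fin m → ℝ) : GCell m :=
  (fun j => ⌊x j⌋, Finset.univ.filter fun j => x j ≠ ⌊x j⌋)

theorem mem_fcell (x : Fin m → ℝ) : x ∈ cell (fcell x) := by
  intro j
  simp only [fcell, Finset.mem_filter, Finset.mem_univ, true_and, ne_eq, not_not]
  exact ⟨fun _ => ⟨Int.floor_le _, (Int.lt_floor_add_one _).le⟩, fun h => h⟩

theorem fcell_subset_box {N : ℕ} {x : Fin m → ℝ} (hx : x ∈ box m N) : cell (fcell x) ⊆ box m N := by
  intro z hz j
  have hzj := hz j
  simp only [fcell, Finset.mem_filter, Finset.mem_univ, true_and, ne_eq, not_not] at hzj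
  have h0 : 0 ≤ ⌊x j⌋ := Int.floor_nonneg.2 (hx j).1
  have h0' : (0 : ℝ) ≤ ⌊x j⌋ := by exact_mod_cast h0
  by_cases h : x j = ⌊x j⌋
  · rw [hzj.2 h, ← h]; exact hx j
  · have h1 := hzj.1 h
    have h2 : (⌊x j⌋ : ℝ) < N := lt_of_lt_of_le (lt_of_le_of_ne (Int.floor_le _) (Ne.symm h)) (hx j).2
    have h3 : ⌊x j⌋ < (N : ℤ) := by exact_mod_cast h2
    have h4 : (⌊x j⌋ : ℝ) + 1 ≤ N := by exact_mod_cast h3
    exact ⟨le_trans h0' h1.1, le_trans h1.2 h4⟩

theorem fcell_subset_bbd {N : ℕ} {x : Fin m → ℝ} (hx : x ∈ bbd m N) : cell (fcell x) ⊆ bbd m N := by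
  intro z hz
  refine ⟨fcell_subset_box hx.1 hz, ?_⟩
  obtain ⟨j, hj⟩ := hx.2
  refine ⟨j, ?_⟩
  have hzj := hz j
  simp only [fcell, Finset.mem_filter, Finset.mem_univ, true_and, ne_eq, not_not] at hzj
  rcases hj with h | h
  · left
    rw [hzj.2 (by rw [h]; simp), h]; simp
  · right
    rw [hzj.2 (by rw [h]; simp), h]; simp

/-- Extension over a box with labels on the unit cubes. -/
theorem label_extend {α : Type*} [TopologicalSpace α] {A B : Set α} {n : ℕ} (hmn : m ≤ n)
    (hA : ∀ k ≤ n, Ext k A) (hB : ∀ k ≤ n, Ext k B) (hAB : ∀ k < n, Ext k (A ∩ B))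
    (N : ℕ) (hN : 0 < N) (L : (Fin m → ℤ) → Prop) (f : (Fin m → ℝ) → α)
    (hf : ContinuousOn f (bbd m N))
    (hLA : ∀ a : Fin m → ℤ, (∀ j, 0 ≤ a j ∧ a j < N) → L a →
      MapsTo f (cell (a, Finset.univ) ∩ bbd m N) A)
    (hLB : ∀ a : Fin m → ℤ, (∀ j, 0 ≤ a j ∧ a j < N) → ¬ L a →
      MapsTo f (cell (a, Finset.univ) ∩ bbd m N) B) :
    ∃ g : (Fin m → ℝ) → α, ContinuousOn g (box m N) ∧ MapsTo g (box m N) (A ∪ B) ∧
      EqOn g f (bbd m N) := by
  classical
  let C : Finset (GCell m) :=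
    ((Fintype.piFinset fun _ : Fin m => Finset.Icc (0 : ℤ) N) ×ˢ Finset.univ).filter
      fun c => cell c ⊆ box m N
  have memC : ∀ c : GCell m, c ∈ C ↔ cell c ⊆ box m N := by
    intro c
    simp only [C, Finset.mem_filter, Finset.mem_product, Fintype.mem_piFinset, Finset.mem_Icc,
      Finset.mem_univ, and_true, and_iff_right_iff_imp]
    intro h j
    have := h (corner_mem c) j
    exact ⟨by exact_mod_cast this.1, by exact_mod_cast this.2⟩
  let D : Finset (GCell m) := C.filter fun c => cell c ⊆ bbd m N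
  have memD : ∀ c : GCell m, c ∈ D ↔ cell c ⊆ bbd m N := by
    intro c
    simp only [D, Finset.mem_filter, memC, and_iff_right_iff_imp]
    exact fun h x hx => (h hx).1
  let K : GCell m → Set α := fun c =>
    {y | ∀ a : Fin m → ℤ, (∀ j, 0 ≤ a j ∧ a j < N) → cell c ⊆ cell (a, Finset.univ) →
      (L a → y ∈ A) ∧ (¬ L a → y ∈ B)}
  have htop : ∀ c ∈ C, ∃ a : Fin m → ℤ, (∀ j, 0 ≤ a j ∧ a j < N) ∧
      cell c ⊆ cell (a, Finset.univ) := by
    intro c hc
    rw [memC] at hc
    have hNz : (0 : ℤ) < N := by exact_mod_cast hN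
    refine ⟨fun j => if j ∈ c.2 then c.1 j else min (c.1 j) (N - 1), fun j => ?_, ?_⟩
    · have h1 := hc (corner_mem c) j
      have h2 := hc (corner_mem' c) j
      have h10 : 0 ≤ c.1 j := by exact_mod_cast h1.1
      by_cases hj : j ∈ c.2
      · simp only [hj, if_true] at h2 ⊢
        have : c.1 j + 1 ≤ N := by exact_mod_cast h2.2
        constructor <;> omega
      · simp only [hj, if_false]
        constructor <;> omega
    · intro z hz j
      refine ⟨fun _ => ?_, fun h => absurd (Finset.mem_univ j) h⟩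
      have hzb := hc hz j
      by_cases hj : j ∈ c.2
      · simp only [hj, if_true]
        exact (hz j).1 hj
      · simp only [hj, if_false]
        have hzj := (hz j).2 hj
        have h1 := hc (corner_mem c) j
        have h1' : c.1 j ≤ N := by exact_mod_cast h1.2
        rw [hzj]
        constructor
        · exact_mod_cast min_le_left _ _
        · have : c.1 j ≤ min (c.1 j) ((N : ℤ) - 1) + 1 := by omega
          exact_mod_cast this
  obtain ⟨g, hg, hgf⟩ := grid_extend C
    (fun c hc c' h => by rw [memC] at hc ⊢; exact h.trans hc) K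
    (fun c hc c' h y hy a ha hca => hy a ha (h.trans hca)) _ D (Finset.filter_subset _ _) rfl
    (fun c hc c' h => by rw [memD] at hc ⊢; exact h.trans hc)
    (by
      intro c hc _
      obtain ⟨a0, ha0, hca0⟩ := htop c hc
      have hcard : c.2.card ≤ m := by
        have := Finset.card_le_univ c.2
        simpa using this
      by_cases h1 : ∀ a : Fin m → ℤ, (∀ j, 0 ≤ a j ∧ a j < N) → cell c ⊆ cell (a, Finset.univ) → L a
      · have : K c = A := by
          ext y
          constructor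
          · intro hy; exact (hy a0 ha0 hca0).1 (h1 a0 ha0 hca0)
          · intro hy a ha hca
            exact ⟨fun _ => hy, fun h => absurd (h1 a ha hca) h⟩
        rw [this, ← ext_iff_pi]
        exact hA _ (hcard.trans hmn)
      · by_cases h2 : ∀ a : Fin m → ℤ, (∀ j, 0 ≤ a j ∧ a j < N) →
            cell c ⊆ cell (a, Finset.univ) → ¬ L a
        · have : K c = B := by
            ext y
            constructor
            · intro hy; exact (hy a0 ha0 hca0).2 (h2 a0 ha0 hca0)
            · intro hy a ha hca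
              exact ⟨fun h => absurd h (h2 a ha hca), fun _ => hy⟩
          rw [this, ← ext_iff_pi]
          exact hB _ (hcard.trans hmn)
        · push Not at h1 h2
          obtain ⟨a1, ha1, hca1, hL1⟩ := h1
          obtain ⟨a2, ha2, hca2, hL2⟩ := h2
          have : K c = A ∩ B := by
            ext y
            constructor
            · intro hy; exact ⟨(hy a2 ha2 hca2).1 hL2, (hy a1 ha1 hca1).2 hL1⟩
            · intro hy a ha hca
              exact ⟨fun _ => hy.1, fun _ => hy.2⟩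
          rw [this, ← ext_iff_pi]
          refine hAB _ (lt_of_lt_of_le (lt_of_le_of_ne hcard ?_) hmn)
          intro hcm
          have e1 := eq_of_cell_subset hca1 (by simp [hcm])
          have e2 := eq_of_cell_subset hca2 (by simp [hcm])
          have : a1 = a2 := by
            have := e1.symm.trans e2
            exact congrArg Prod.fst this
          subst this
          exact hL1 hL2)
    f
    (fun c hc => hf.mono ((memD c).1 hc))
    (by
      intro c hc x hx a ha hca
      exact ⟨fun h => hLA a ha h ⟨hca hx, (memD c).1 hc hx⟩,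
        fun h => hLB a ha h ⟨hca hx, (memD c).1 hc hx⟩⟩)
  refine ⟨g, ?_, ?_, ?_⟩
  · have hbox : box m N ⊆ ⋃ c : C, cell (c : GCell m) := by
      intro x hx
      rw [mem_iUnion]
      exact ⟨⟨fcell x, (memC _).2 (fcell_subset_box hx)⟩, mem_fcell x⟩
    refine ContinuousOn.mono ?_ hbox
    exact (locallyFinite_of_finite _).continuousOn_iUnion (fun _ => isClosed_cell _)
      (fun c => (hg c c.2).1)
  · intro x hx
    have hc := (memC _).2 (fcell_subset_box hx)
    have hy := (hg _ hc).2 (mem_fcell x)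
    obtain ⟨a, ha, hca⟩ := htop _ hc
    have := hy a ha hca
    by_cases h : L a
    · exact Or.inl (this.1 h)
    · exact Or.inr (this.2 h)
  · intro x hx
    exact hgf _ ((memD _).2 (fcell_subset_bbd hx)) (mem_fcell x)

/-- geometric realization of a complex `A` (a down-closed family of subsets of a finite set `ι`) -/
def Real {ι : Type*} [Fintype ι] (A : Set (Set ι)) : Set (ι → ℝ) :=
  {x | (∀ i, 0 ≤ x i) ∧ ∑ i, x i = 1 ∧ Function.support x ∈ A}

section threshold

variable {ι : Type*} [Fintype ι]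

/-- threshold and normalise -/
noncomputable def thr (ε : ℝ) (y : ι → ℝ) : ι → ℝ :=
  fun i => max (y i - ε) 0 / ∑ k, max (y k - ε) 0

theorem thr_sum_pos {y : ι → ℝ} (hs : ∑ i, y i = 1) {ε : ℝ}
    (hε : ε * Fintype.card ι < 1) : 0 < ∑ k, max (y k - ε) 0 := by
  have h0 : ∀ k, 0 ≤ max (y k - ε) 0 := fun k => le_max_right _ _
  refine lt_of_le_of_ne (Finset.sum_nonneg fun k _ => h0 k) ?_
  intro h
  have h1 := (Finset.sum_eq_zero_iff_of_nonneg (fun k _ => h0 k)).1 h.symm
  have h2 : ∑ i, y i ≤ ∑ _i : ι, ε := by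
    refine Finset.sum_le_sum fun i hi => ?_
    have h3 := h1 i hi
    have h4 := le_max_left (y i - ε) 0
    linarith
  rw [Finset.sum_const, Finset.card_univ, nsmul_eq_mul, hs] at h2
  linarith [mul_comm (Fintype.card ι : ℝ) ε]

theorem thr_nonneg (ε : ℝ) (y : ι → ℝ) (i : ι) : 0 ≤ thr ε y i :=
  div_nonneg (le_max_right _ _) (Finset.sum_nonneg fun _ _ => le_max_right _ _)

theorem thr_sum {y : ι → ℝ} {ε : ℝ} (h : 0 < ∑ k, max (y k - ε) 0) : ∑ i, thr ε y i = 1 := by
  unfold thr
  rw [← Finset.sum_div, div_self h.ne']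

theorem lt_of_thr_ne {ε : ℝ} {y : ι → ℝ} {i : ι} (h : thr ε y i ≠ 0) : ε < y i := by
  by_contra hcon
  apply h
  unfold thr
  rw [max_eq_right (by linarith), zero_div]

theorem continuousOn_thr {ε : ℝ} (hε : ε * Fintype.card ι < 1) :
    ContinuousOn (thr ε) {y : ι → ℝ | ∑ i, y i = 1} := by
  refine continuousOn_pi.2 fun i => ?_
  unfold thr
  refine ContinuousOn.div ?_ ?_ ?_
  · exact (((continuous_apply i).sub continuous_const).max continuous_const).continuousOn
  · exact (continuous_finset_sum _ fun k _ =>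
      ((continuous_apply k).sub continuous_const).max continuous_const).continuousOn
  · intro y hy
    exact (thr_sum_pos hy hε).ne'

end threshold

/-- **Union lemma.** -/
theorem union_ext {ι : Type*} [Fintype ι] {A B : Set (Set ι)}
    (hAd : ∀ s ∈ A, ∀ t ⊆ s, t ∈ A) (hBd : ∀ s ∈ B, ∀ t ⊆ s, t ∈ B) {n : ℕ}
    (hA : ∀ k ≤ n, Ext k (Real A)) (hB : ∀ k ≤ n, Ext k (Real B))
    (hAB : ∀ k < n, Ext k (Real (A ∩ B))) :
    ∀ k ≤ n, Ext k (Real (A ∪ B)) := by
  classical
  intro m hm
  rw [ext_iff_pi]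
  intro f hf hfY
  have hUd : ∀ s ∈ A ∪ B, ∀ t ⊆ s, t ∈ A ∪ B := by
    rintro s (hs | hs) t ht
    · exact Or.inl (hAd s hs t ht)
    · exact Or.inr (hBd s hs t ht)
  -- the threshold
  let ε : ℝ := 1 / (2 * (Fintype.card ι + 1))
  have hc0 : (0 : ℝ) < Fintype.card ι + 1 := by positivity
  have hε0 : 0 < ε := by positivity
  have hε : ε * Fintype.card ι < 1 := by
    simp only [ε]
    rw [div_mul_eq_mul_div, div_lt_one (by positivity)]
    linarith
  -- homotopy
  let H : ℝ → (Fin m → ℝ) → (ι → ℝ) := fun t x => (1 - t) • f x + t • thr ε (f x)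
  have hfsum : ∀ x ∈ sphere (0 : Fin m → ℝ) 1, ∑ i, f x i = 1 := fun x hx => (hfY hx).2.1
  have hthr : ContinuousOn (fun x => thr ε (f x)) (sphere (0 : Fin m → ℝ) 1) :=
    (continuousOn_thr hε).comp hf (fun x hx => hfsum x hx)
  have hH : ContinuousOn (fun p : ℝ × (Fin m → ℝ) => H p.1 p.2)
      (Icc (0 : ℝ) 1 ×ˢ sphere (0 : Fin m → ℝ) 1) := by
    have h1 : ContinuousOn (fun p : ℝ × (Fin m → ℝ) => f p.2)
        (Icc (0 : ℝ) 1 ×ˢ sphere (0 : Fin m → ℝ) 1) :=
      hf.comp continuous_snd.continuousOn (fun p hp => hp.2)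
    have h2 : ContinuousOn (fun p : ℝ × (Fin m → ℝ) => thr ε (f p.2))
        (Icc (0 : ℝ) 1 ×ˢ sphere (0 : Fin m → ℝ) 1) :=
      hthr.comp continuous_snd.continuousOn (fun p hp => hp.2)
    exact ((continuous_const.sub continuous_fst).continuousOn.smul h1).add
      (continuous_fst.continuousOn.smul h2)
  have hsupp : ∀ y : ι → ℝ, Function.support (thr ε y) ⊆ {i | ε < y i} :=
    fun y i hi => lt_of_thr_ne hi
  have hsupp' : ∀ y : ι → ℝ, Function.support (thr ε y) ⊆ Function.support y :=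
    fun y i hi => (lt_trans hε0 (lt_of_thr_ne hi)).ne'
  have hHY : ∀ t ∈ Icc (0 : ℝ) 1, ∀ x ∈ sphere (0 : Fin m → ℝ) 1, H t x ∈ Real (A ∪ B) := by
    intro t ht x hx
    have hx' := hfY hx
    refine ⟨fun i => ?_, ?_, ?_⟩
    · simp only [H, Pi.add_apply, Pi.smul_apply, smul_eq_mul]
      exact add_nonneg (mul_nonneg (by linarith [ht.2]) (hx'.1 i))
        (mul_nonneg ht.1 (thr_nonneg _ _ _))
    · simp only [H, Pi.add_apply, Pi.smul_apply, smul_eq_mul]
      rw [Finset.sum_add_distrib, ← Finset.mul_sum, ← Finset.mul_sum, hx'.2.1,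
        thr_sum (thr_sum_pos hx'.2.1 hε)]
      ring
    · refine hUd _ hx'.2.2 _ ?_
      intro i hi
      by_contra hcon
      apply hi
      have h1 : f x i = 0 := by simpa using hcon
      have h2 : thr ε (f x) i = 0 := by
        by_contra h3
        exact hcon (hsupp' _ h3)
      simp only [H, Pi.add_apply, Pi.smul_apply, smul_eq_mul, h1, h2, mul_zero, add_zero]
  -- uniform continuity
  have huc : UniformContinuousOn f (sphere (0 : Fin m → ℝ) 1) :=
    (isCompact_sphere _ _).uniformContinuousOn_of_continuous hf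
  rw [Metric.uniformContinuousOn_iff] at huc
  obtain ⟨δ, hδ, huc⟩ := huc ε hε0
  obtain ⟨N, hN⟩ := exists_nat_gt (2 / δ)
  have hNpos : (0 : ℝ) < N := lt_trans (by positivity) hN
  have hN0 : 0 < N := by exact_mod_cast hNpos
  have hNδ : 2 / (N : ℝ) < δ := by
    rw [div_lt_iff₀ hNpos]
    rw [div_lt_iff₀ hδ] at hN
    linarith
  -- affine identification of the box with the ball
  let u : (Fin m → ℝ) → (Fin m → ℝ) := fun x j => (2 / (N : ℝ)) * x j - 1
  let v : (Fin m → ℝ) → (Fin m → ℝ) := fun x j => ((N : ℝ) / 2) * (x j + 1)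
  have huc' : Continuous u := continuous_pi fun j =>
    (continuous_const.mul (continuous_apply j)).sub continuous_const
  have hvc : Continuous v := continuous_pi fun j =>
    continuous_const.mul ((continuous_apply j).add continuous_const)
  have huv : ∀ x, u (v x) = x := by
    intro x; funext j; simp only [u, v]; field_simp; ring
  have hu_bbd : ∀ x ∈ bbd m N, u x ∈ sphere (0 : Fin m → ℝ) 1 := by
    intro x hx
    rw [mem_sphere_zero_iff_norm]
    refine le_antisymm ?_ ?_
    · rw [pi_norm_le_iff_of_nonneg zero_le_one]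
      intro j
      have hxj := hx.1 j
      rw [Real.norm_eq_abs, abs_le]
      simp only [u]
      have h1 : 0 ≤ 2 / (N : ℝ) * x j := mul_nonneg (by positivity) hxj.1
      have h2 : 2 / (N : ℝ) * x j ≤ 2 := by
        calc 2 / (N : ℝ) * x j ≤ 2 / (N : ℝ) * N :=
              mul_le_mul_of_nonneg_left hxj.2 (by positivity)
          _ = 2 := by field_simp
      constructor <;> linarith
    · obtain ⟨j, hj⟩ := hx.2
      refine le_trans ?_ (norm_le_pi_norm (u x) j)
      rw [Real.norm_eq_abs]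
      simp only [u]
      rcases hj with h | h
      · rw [h]; norm_num
      · rw [h, div_mul_cancel₀ _ hNpos.ne']; norm_num
  have hv_ball : ∀ x ∈ closedBall (0 : Fin m → ℝ) 1, v x ∈ box m N := by
    intro x hx j
    rw [mem_closedBall_zero_iff, pi_norm_le_iff_of_nonneg zero_le_one] at hx
    have := abs_le.1 (by simpa using hx j)
    simp only [v]
    constructor
    · exact mul_nonneg (by positivity) (by linarith [this.1])
    · calc (N : ℝ) / 2 * (x j + 1) ≤ (N : ℝ) / 2 * 2 :=
            mul_le_mul_of_nonneg_left (by linarith [this.2]) (by positivity)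
        _ = N := by ring
  have hv_sph : ∀ x ∈ sphere (0 : Fin m → ℝ) 1, v x ∈ bbd m N := by
    intro x hx
    refine ⟨hv_ball x (sphere_subset_closedBall hx), ?_⟩
    rw [mem_sphere_zero_iff_norm] at hx
    by_contra hcon
    push Not at hcon
    have : ‖x‖ < 1 := by
      rw [pi_norm_lt_iff zero_lt_one]
      intro j
      have hj := (pi_norm_le_iff_of_nonneg zero_le_one).1 hx.le j
      rw [Real.norm_eq_abs] at hj ⊢
      refine lt_of_le_of_ne hj ?_
      intro h1
      rcases eq_or_eq_neg_of_abs_eq h1 with h | h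
      · apply (hcon j).2; simp only [v]; rw [h]; ring
      · apply (hcon j).1; simp only [v]; rw [h]; ring
    linarith
  -- labels
  let L : (Fin m → ℤ) → Prop := fun a =>
    ∃ h : (cell (a, Finset.univ) ∩ bbd m N).Nonempty, Function.support (f (u h.some)) ∈ A
  have hdist : ∀ a : Fin m → ℤ, ∀ x ∈ cell (a, Finset.univ) ∩ bbd m N,
      ∀ y ∈ cell (a, Finset.univ) ∩ bbd m N, dist (f (u x)) (f (u y)) < ε := by
    intro a x hx y hy
    refine huc _ (hu_bbd x hx.2) _ (hu_bbd y hy.2) ?_
    refine lt_of_le_of_lt ?_ hNδ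
    rw [dist_pi_le_iff (by positivity)]
    intro j
    rw [Real.dist_eq]
    simp only [u]
    have e : 2 / (N : ℝ) * x j - 1 - (2 / (N : ℝ) * y j - 1) = 2 / (N : ℝ) * (x j - y j) := by ring
    rw [e, abs_mul, abs_of_pos (by positivity : (0 : ℝ) < 2 / N)]
    have h1 := (hx.1 j).1 (Finset.mem_univ j)
    have h2 := (hy.1 j).1 (Finset.mem_univ j)
    have h3 : |x j - y j| ≤ 1 := by
      rw [abs_le]; constructor <;> linarith [h1.1, h1.2, h2.1, h2.2]
    calc 2 / (N : ℝ) * |x j - y j| ≤ 2 / (N : ℝ) * 1 :=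
          mul_le_mul_of_nonneg_left h3 (by positivity)
      _ = 2 / N := mul_one _
  have hsup : ∀ a : Fin m → ℤ, ∀ x ∈ cell (a, Finset.univ) ∩ bbd m N,
      ∀ y ∈ cell (a, Finset.univ) ∩ bbd m N,
      Function.support (thr ε (f (u x))) ⊆ Function.support (f (u y)) := by
    intro a x hx y hy i hi
    have h1 : ε < f (u x) i := lt_of_thr_ne hi
    have h2 : dist (f (u x) i) (f (u y) i) < ε := lt_of_le_of_lt (dist_le_pi_dist _ _ i)
      (hdist a x hx y hy)
    rw [Real.dist_eq, abs_lt] at h2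
    have h3 : 0 < f (u y) i := by linarith [h2.2]
    exact h3.ne'
  let f1 : (Fin m → ℝ) → (ι → ℝ) := fun x => thr ε (f (u x))
  have hf1 : ContinuousOn f1 (bbd m N) := hthr.comp huc'.continuousOn hu_bbd
  have hbase : ∀ x ∈ bbd m N, (∀ i, 0 ≤ f1 x i) ∧ ∑ i, f1 x i = 1 := by
    intro x hx
    exact ⟨fun i => thr_nonneg _ _ _, thr_sum (thr_sum_pos (hfsum _ (hu_bbd x hx)) hε)⟩
  have hreal : Real (A ∩ B) = Real A ∩ Real B := by
    ext x
    constructor
    · rintro ⟨h1, h2, h3⟩; exact ⟨⟨h1, h2, h3.1⟩, ⟨h1, h2, h3.2⟩⟩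
    · rintro ⟨⟨h1, h2, h3⟩, ⟨_, _, h4⟩⟩; exact ⟨h1, h2, h3, h4⟩
  obtain ⟨g, hg, hgY, hgf⟩ := label_extend hm hA hB (by rw [← hreal]; exact hAB) N hN0 L f1 hf1
    (by
      rintro a ha ⟨hne, hLa⟩ x hx
      refine ⟨(hbase x hx.2).1, (hbase x hx.2).2, ?_⟩
      exact hAd _ hLa _ (hsup a x hx _ hne.some_mem))
    (by
      intro a ha hLa x hx
      have hne : (cell (a, Finset.univ) ∩ bbd m N).Nonempty := ⟨x, hx⟩
      have h1 : Function.support (f (u hne.some)) ∉ A := fun h => hLa ⟨hne, h⟩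
      have h2 : Function.support (f (u hne.some)) ∈ A ∪ B :=
        (hfY (hu_bbd _ hne.some_mem.2)).2.2
      have h3 : Function.support (f (u hne.some)) ∈ B := h2.resolve_left h1
      refine ⟨(hbase x hx.2).1, (hbase x hx.2).2, ?_⟩
      exact hBd _ h3 _ (hsup a x hx _ hne.some_mem))
  refine extend_of_homotopy f H hH hHY ?_ (fun x => g (v x)) ?_ ?_ ?_
  · intro x _
    simp only [H]
    simp
  · exact hg.comp hvc.continuousOn hv_ball
  · intro x hx
    rcases hgY (hv_ball x hx) with h | h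
    · exact ⟨h.1, h.2.1, Or.inl h.2.2⟩
    · exact ⟨h.1, h.2.1, Or.inr h.2.2⟩
  · intro x hx
    change g (v x) = H 1 x
    rw [hgf (hv_sph x hx)]
    simp only [f1, huv, H]
    simp

end Pool.Agent.H58
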