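import Pool.Agent.H58.Ext

/-!
Cell by cell extension of continuous maps over a cubical grid.
-/

set_option autoImplicit false

open Set Metric

namespace Pool.Agent.H58

/-- a grid cell: lower corner and the set of free directions -/
abbrev GCell (m : ℕ) := (Fin m → ℤ) × Finset (Fin m)

/-- the closed grid cell -/
def cell {m : ℕ} (c : GCell m) : Set (Fin m → ℝ) :=
  {x | ∀ j, (j ∈ c.2 → (c.1 j : ℝ) ≤ x j ∧ x j ≤ c.1 j + 1) ∧ (j ∉ c.2 → x j = c.1 j)}

/-- the boundary of a grid cell -/
def cbd {m : ℕ} (c : GCell m) : Set (Fin m → ℝ) :=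
  {x | x ∈ cell c ∧ ∃ j ∈ c.2, x j = c.1 j ∨ x j = c.1 j + 1}

variable {m : ℕ}

theorem isClosed_cell (c : GCell m) : IsClosed (cell c) := by
  have : cell c = ⋂ j, {x : Fin m → ℝ |
      (j ∈ c.2 → (c.1 j : ℝ) ≤ x j ∧ x j ≤ c.1 j + 1) ∧ (j ∉ c.2 → x j = c.1 j)} := by
    ext x; simp [cell]
  rw [this]
  refine isClosed_iInter fun j => ?_
  by_cases hj : j ∈ c.2
  · simp only [hj, true_implies, not_true, false_implies, and_true]
    exact (isClosed_le continuous_const (continuous_apply j)).inter
      (isClosed_le (continuous_apply j) continuous_const)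
  · simp only [hj, false_implies, not_false_iff, true_implies, true_and]
    exact isClosed_eq (continuous_apply j) continuous_const

/-- centre of a cell -/
noncomputable def ctr (c : GCell m) : Fin m → ℝ := fun j => c.1 j + (if j ∈ c.2 then 1 / 2 else 0)

theorem ctr_mem (c : GCell m) : ctr c ∈ cell c := by
  intro j
  unfold ctr
  constructor
  · intro hj; simp only [hj, if_true]; constructor <;> linarith
  · intro hj; simp [hj]

theorem corner_mem (c : GCell m) : (fun j => (c.1 j : ℝ)) ∈ cell c := by
  intro j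
  constructor
  · intro _; constructor <;> simp
  · intro _; rfl

theorem corner_mem' (c : GCell m) : (fun j => (c.1 j : ℝ) + (if j ∈ c.2 then 1 else 0)) ∈ cell c := by
  intro j
  constructor
  · intro hj; simp [hj]
  · intro hj; simp [hj]

/-- A cell containing an interior point of `c` contains `c`. -/
theorem cell_subset_of_relint {c c' : GCell m} {x : Fin m → ℝ} (hx : x ∈ cell c) (hxb : x ∉ cbd c)
    (hx' : x ∈ cell c') : cell c ⊆ cell c' := by
  have hlt : ∀ j ∈ c.2, (c.1 j : ℝ) < x j ∧ x j < c.1 j + 1 := by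
    intro j hj
    have h1 := (hx j).1 hj
    have h2 : ¬ (x j = c.1 j ∨ x j = c.1 j + 1) := fun h => hxb ⟨hx, j, hj, h⟩
    push Not at h2
    exact ⟨lt_of_le_of_ne h1.1 (Ne.symm h2.1), lt_of_le_of_ne h1.2 h2.2⟩
  intro z hz j
  by_cases hj : j ∈ c.2
  · have hl := hlt j hj
    by_cases hj' : j ∈ c'.2
    · have h' := (hx' j).1 hj'
      have e1 : c'.1 j < c.1 j + 1 := by
        have : (c'.1 j : ℝ) < c.1 j + 1 := lt_of_le_of_lt h'.1 hl.2
        exact_mod_cast this
      have e2 : c.1 j < c'.1 j + 1 := by
        have : (c.1 j : ℝ) < c'.1 j + 1 := lt_of_lt_of_le hl.1 h'.2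
        exact_mod_cast this
      have e : c'.1 j = c.1 j := by omega
      rw [e]
      exact ⟨fun _ => (hz j).1 hj, fun h => absurd hj' h⟩
    · exfalso
      have h' := (hx' j).2 hj'
      rw [h'] at hl
      have e1 : c.1 j < c'.1 j := by exact_mod_cast hl.1
      have e2 : c'.1 j < c.1 j + 1 := by exact_mod_cast hl.2
      omega
  · have hxj := (hx j).2 hj
    have hzj := (hz j).2 hj
    rw [hzj, ← hxj]
    exact hx' j

/-- A face of `c` of at least the same dimension is `c`. -/
theorem eq_of_cell_subset {c c' : GCell m} (h : cell c' ⊆ cell c) (hc : c.2.card ≤ c'.2.card) :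
    c' = c := by
  have hx := h (ctr_mem c')
  have hsub : ∀ j ∈ c'.2, j ∈ c.2 ∧ c.1 j = c'.1 j := by
    intro j hj
    have hxj := hx j
    have hv : ctr c' j = c'.1 j + 1 / 2 := by simp [ctr, hj]
    rw [hv] at hxj
    by_cases hj' : j ∈ c.2
    · refine ⟨hj', ?_⟩
      have := hxj.1 hj'
      have e1 : c.1 j < c'.1 j + 1 := by
        have : (c.1 j : ℝ) < c'.1 j + 1 := by linarith [this.1]
        exact_mod_cast this
      have e2 : c'.1 j < c.1 j + 1 := by
        have : (c'.1 j : ℝ) < c.1 j + 1 := by linarith [this.2]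
        exact_mod_cast this
      omega
    · exfalso
      have := hxj.2 hj'
      have h2 : (2 : ℝ) * c'.1 j + 1 = 2 * c.1 j := by linarith
      have h3 : (2 : ℤ) * c'.1 j + 1 = 2 * c.1 j := by exact_mod_cast h2
      omega
  have hS : c'.2 = c.2 := Finset.eq_of_subset_of_card_le (fun j hj => (hsub j hj).1) hc
  refine Prod.ext ?_ hS
  funext j
  by_cases hj : j ∈ c'.2
  · exact (hsub j hj).2.symm
  · have hj' : j ∉ c.2 := by rwa [← hS]
    have := (hx j).2 hj'
    have hv : ctr c' j = c'.1 j := by simp [ctr, hj]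
    rw [hv] at this
    exact_mod_cast this

/-- the two facets of `c` in direction `j` -/
def facet (c : GCell m) (j : Fin m) (s : ℤ) : GCell m := (Function.update c.1 j (c.1 j + s), c.2.erase j)

theorem facet_subset (c : GCell m) {j : Fin m} (hj : j ∈ c.2) {s : ℤ} (hs : s = 0 ∨ s = 1) :
    cell (facet c j s) ⊆ cell c := by
  intro x hx i
  have hxi := hx i
  unfold facet at hxi
  by_cases hij : i = j
  · subst hij
    simp only [Finset.mem_erase, ne_eq, not_true, false_and, false_implies, not_false_iff,
      true_implies, true_and, Function.update_self] at hxi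
    refine ⟨fun _ => ?_, fun h => absurd hj h⟩
    rcases hs with rfl | rfl
    · rw [hxi]; push_cast; constructor <;> linarith
    · rw [hxi]; push_cast; constructor <;> linarith
  · simp only [Finset.mem_erase, ne_eq, hij, not_false_iff, true_and, Function.update_of_ne] at hxi
    exact hxi

theorem facet_card (c : GCell m) {j : Fin m} (hj : j ∈ c.2) (s : ℤ) :
    (facet c j s).2.card < c.2.card := Finset.card_erase_lt_of_mem hj

theorem cbd_eq (c : GCell m) :
    cbd c = ⋃ p : {p : Fin m × Bool // p.1 ∈ c.2}, cell (facet c p.1.1 (if p.1.2 then 1 else 0)) := by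
  ext x
  simp only [mem_iUnion]
  constructor
  · rintro ⟨hx, j, hj, h⟩
    have key : ∀ s : ℤ, x j = c.1 j + s → x ∈ cell (facet c j s) := by
      intro s hs i
      unfold facet
      by_cases hij : i = j
      · subst hij
        simp only [Finset.mem_erase, ne_eq, not_true, false_and, false_implies, not_false_iff,
          true_implies, true_and, Function.update_self]
        rw [hs]; push_cast; rfl
      · simp only [Finset.mem_erase, ne_eq, hij, not_false_iff, true_and, Function.update_of_ne]
        exact hx i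
    rcases h with h | h
    · refine ⟨⟨(j, false), hj⟩, ?_⟩
      simp only [Bool.false_eq_true, if_false]
      exact key 0 (by rw [h]; simp)
    · refine ⟨⟨(j, true), hj⟩, ?_⟩
      simp only [if_true]
      exact key 1 (by rw [h]; simp)
  · rintro ⟨⟨⟨j, b⟩, hj⟩, hx⟩
    have hs : (if b then (1 : ℤ) else 0) = 0 ∨ (if b then (1 : ℤ) else 0) = 1 := by
      cases b <;> simp
    refine ⟨facet_subset c hj hs hx, j, hj, ?_⟩
    have hxj := hx j
    unfold facet at hxj
    simp only [Finset.mem_erase, ne_eq, not_true, false_and, false_implies, not_false_iff,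
      true_implies, true_and, Function.update_self] at hxj
    cases b
    · left; rw [hxj]; simp
    · right; rw [hxj]; simp

/-- Extension over a single cell. -/
theorem ext_cell (c : GCell m) {α : Type*} [TopologicalSpace α] {Y : Set α}
    (h : ExtN (Fin c.2.card → ℝ) Y) (f : (Fin m → ℝ) → α) (hf : ContinuousOn f (cbd c))
    (hfY : MapsTo f (cbd c) Y) :
    ∃ e : (Fin m → ℝ) → α, ContinuousOn e (cell c) ∧ MapsTo e (cell c) Y ∧ EqOn e f (cbd c) := by
  classical
  let σ : Fin c.2.card ≃ c.2 := c.2.equivFin.symm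
  let p : (Fin m → ℝ) → (Fin c.2.card → ℝ) := fun x i => 2 * (x (σ i) - c.1 (σ i)) - 1
  let q : (Fin c.2.card → ℝ) → (Fin m → ℝ) := fun y j =>
    if hj : j ∈ c.2 then c.1 j + (y (σ.symm ⟨j, hj⟩) + 1) / 2 else c.1 j
  have hpc : Continuous p := by
    refine continuous_pi fun i => ?_
    exact (continuous_const.mul ((continuous_apply _).sub continuous_const)).sub continuous_const
  have hqc : Continuous q := by
    refine continuous_pi fun j => ?_
    by_cases hj : j ∈ c.2
    · simp only [q, dif_pos hj]
      exact continuous_const.add (((continuous_apply _).add continuous_const).div_const _)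
    · simp only [q, dif_neg hj]
      exact continuous_const
  have hqin : ∀ y : Fin c.2.card → ℝ, ‖y‖ ≤ 1 → q y ∈ cell c := by
    intro y hy j
    have hy' := (pi_norm_le_iff_of_nonneg (zero_le_one)).1 hy
    constructor
    · intro hj
      simp only [q, dif_pos hj]
      have := abs_le.1 (by simpa using hy' (σ.symm ⟨j, hj⟩))
      constructor <;> linarith [this.1, this.2]
    · intro hj
      simp only [q, dif_neg hj]
  have hqbd : ∀ y : Fin c.2.card → ℝ, ‖y‖ = 1 → q y ∈ cbd c := by
    intro y hy
    refine ⟨hqin y hy.le, ?_⟩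
    by_contra hcon
    push Not at hcon
    have : ‖y‖ < 1 := by
      rw [pi_norm_lt_iff zero_lt_one]
      intro i
      have hi := (pi_norm_le_iff_of_nonneg (zero_le_one)).1 hy.le i
      rw [Real.norm_eq_abs] at hi ⊢
      refine lt_of_le_of_ne hi ?_
      intro hi1
      have hj := hcon (σ i) (σ i).2
      simp only [q, dif_pos (σ i).2, Subtype.coe_eta, Equiv.symm_apply_apply] at hj
      rcases eq_or_eq_neg_of_abs_eq hi1 with h1 | h1
      · apply hj.2; rw [h1]; norm_num
      · apply hj.1; rw [h1]; norm_num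
    linarith
  have hpin : ∀ x ∈ cell c, ‖p x‖ ≤ 1 := by
    intro x hx
    rw [pi_norm_le_iff_of_nonneg zero_le_one]
    intro i
    have := (hx (σ i)).1 (σ i).2
    rw [Real.norm_eq_abs, abs_le]
    simp only [p]
    constructor <;> linarith [this.1, this.2]
  have hpbd : ∀ x ∈ cbd c, ‖p x‖ = 1 := by
    rintro x ⟨hx, j, hj, hxj⟩
    refine le_antisymm (hpin x hx) ?_
    have hle := norm_le_pi_norm (p x) (σ.symm ⟨j, hj⟩)
    refine le_trans ?_ hle
    simp only [p, Equiv.apply_symm_apply]
    rcases hxj with h | h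
    · rw [h]; norm_num
    · rw [h]; norm_num
  have hqp : ∀ x ∈ cell c, q (p x) = x := by
    intro x hx
    funext j
    by_cases hj : j ∈ c.2
    · simp only [q, p, dif_pos hj, Equiv.apply_symm_apply]
      ring
    · simp only [q, dif_neg hj]
      exact ((hx j).2 hj).symm
  obtain ⟨g, hg, hgY, hgf⟩ := h (f ∘ q)
    (hf.comp hqc.continuousOn (fun y hy => hqbd y (by rwa [mem_sphere_zero_iff_norm] at hy)))
    (fun y hy => hfY (hqbd y (by rwa [mem_sphere_zero_iff_norm] at hy)))
  refine ⟨g ∘ p, hg.comp hpc.continuousOn (fun x hx => ?_), fun x hx => hgY ?_, fun x hx => ?_⟩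
  · rw [mem_closedBall_zero_iff]; exact hpin x hx
  · rw [mem_closedBall_zero_iff]; exact hpin x hx
  · rw [Function.comp_apply, hgf (by rw [mem_sphere_zero_iff_norm]; exact hpbd x hx),
      Function.comp_apply, hqp x hx.1]

/-- Cell by cell extension with carriers. -/
theorem grid_extend {α : Type*} [TopologicalSpace α] (C : Finset (GCell m))
    (hC : ∀ c ∈ C, ∀ c', cell c' ⊆ cell c → c' ∈ C)
    (K : GCell m → Set α)
    (hK : ∀ c ∈ C, ∀ c', cell c' ⊆ cell c → K c' ⊆ K c) :
    ∀ (k : ℕ) (D : Finset (GCell m)), D ⊆ C → (C \ D).card = k →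
      (∀ c ∈ D, ∀ c', cell c' ⊆ cell c → c' ∈ D) →
      (∀ c ∈ C, c ∉ D → ExtN (Fin c.2.card → ℝ) (K c)) →
      ∀ f : (Fin m → ℝ) → α, (∀ c ∈ D, ContinuousOn f (cell c)) →
        (∀ c ∈ D, MapsTo f (cell c) (K c)) →
        ∃ g : (Fin m → ℝ) → α, (∀ c ∈ C, ContinuousOn g (cell c) ∧ MapsTo g (cell c) (K c)) ∧
          ∀ c ∈ D, EqOn g f (cell c) := by
  classical
  intro k
  induction k with
  | zero =>
    intro D hDC hcard _ _ f hf hfK
    have hCD : C ⊆ D := by
      rw [Finset.card_eq_zero, Finset.sdiff_eq_empty_iff_subset] at hcard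
      exact hcard
    exact ⟨f, fun c hc => ⟨hf c (hCD hc), hfK c (hCD hc)⟩, fun c _ x _ => rfl⟩
  | succ k ih =>
    intro D hDC hcard hD hE f hf hfK
    have hne : (C \ D).Nonempty := by
      rw [← Finset.card_pos, hcard]; exact Nat.succ_pos k
    obtain ⟨c, hc, hmin⟩ := Finset.exists_min_image (C \ D) (fun c => c.2.card) hne
    rw [Finset.mem_sdiff] at hc
    have hfacet : ∀ c' , cell c' ⊆ cell c → c' ≠ c → c' ∈ D := by
      intro c' hc' hne'
      by_contra hcon
      have h1 := hmin c' (Finset.mem_sdiff.2 ⟨hC c hc.1 c' hc', hcon⟩)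
      exact hne' (eq_of_cell_subset hc' h1)
    have hfac : ∀ j ∈ c.2, ∀ s : ℤ, (s = 0 ∨ s = 1) → facet c j s ∈ D := by
      intro j hj s hs
      refine hfacet _ (facet_subset c hj hs) ?_
      intro h
      have := facet_card c hj s
      rw [h] at this
      exact lt_irrefl _ this
    have hcont : ContinuousOn f (cbd c) := by
      rw [cbd_eq]
      refine (locallyFinite_of_finite _).continuousOn_iUnion (fun _ => isClosed_cell _) ?_
      rintro ⟨⟨j, b⟩, hj⟩
      exact hf _ (hfac j hj _ (by cases b <;> simp))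
    have hmaps : MapsTo f (cbd c) (K c) := by
      intro x hx
      rw [cbd_eq, mem_iUnion] at hx
      obtain ⟨⟨⟨j, b⟩, hj⟩, hx⟩ := hx
      have hs : (if b then (1 : ℤ) else 0) = 0 ∨ (if b then (1 : ℤ) else 0) = 1 := by
        cases b <;> simp
      exact hK c hc.1 _ (facet_subset c hj hs) (hfK _ (hfac j hj _ hs) hx)
    obtain ⟨e, he, heY, hef⟩ := ext_cell c (hE c hc.1 hc.2) f hcont hmaps
    let f' : (Fin m → ℝ) → α := fun x => if x ∈ cell c then e x else f x
    have hf'c : EqOn f' e (cell c) := fun x hx => by simp only [f', if_pos hx]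
    have hf'D : ∀ c' ∈ D, EqOn f' f (cell c') := by
      intro c' hc' x hx
      by_cases hxc : x ∈ cell c
      · simp only [f', if_pos hxc]
        by_cases hxb : x ∈ cbd c
        · exact hef hxb
        · exact absurd (hD c' hc' c (cell_subset_of_relint hxc hxb hx)) hc.2
      · simp only [f', if_neg hxc]
    obtain ⟨g, hg1, hg2⟩ := ih (insert c D)
      (Finset.insert_subset hc.1 hDC)
      (by
        have : C \ insert c D = (C \ D).erase c := by
          ext x; simp only [Finset.mem_sdiff, Finset.mem_insert, Finset.mem_erase]; tauto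
        rw [this, Finset.card_erase_of_mem (Finset.mem_sdiff.2 hc), hcard]; rfl)
      (by
        intro c1 hc1 c2 h12
        rw [Finset.mem_insert] at hc1 ⊢
        rcases hc1 with rfl | hc1
        · by_cases h : c2 = c1
          · exact Or.inl h
          · exact Or.inr (hfacet c2 h12 h)
        · exact Or.inr (hD c1 hc1 c2 h12))
      (fun c' hc' hn => hE c' hc' (fun h => hn (Finset.mem_insert_of_mem h)))
      f'
      (by
        intro c' hc'
        rw [Finset.mem_insert] at hc'
        rcases hc' with rfl | hc'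
        · exact he.congr hf'c
        · exact (hf c' hc').congr (hf'D c' hc'))
      (by
        intro c' hc' x hx
        rw [Finset.mem_insert] at hc'
        rcases hc' with rfl | hc'
        · rw [hf'c hx]; exact heY hx
        · rw [hf'D c' hc' hx]; exact hfK c' hc' hx)
    refine ⟨g, hg1, fun c' hc' x hx => ?_⟩
    rw [hg2 c' (Finset.mem_insert_of_mem hc') hx, hf'D c' hc' hx]

end Pool.Agent.H58
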