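import Pool.Agent.H44.Basic

/-!
Homology spheres (over a field) among clique complexes, and the fact that they are pure flag
Eulerian complexes.
-/

namespace Pool.Agent.H44

open Finset

set_option linter.unusedSectionVars false

variable {V : Type*} [Fintype V] [DecidableEq V] [LT V] [DecidableLT V]

/-- The faces with `j` vertices of the link of `σ` in the clique complex of `G`: the cliques with
`j` vertices contained in the common neighbourhood of `σ`. -/
abbrev LFace (G : SimpleGraph V) [DecidableRel G.Adj] (σ : Finset V) (j : ℕ) : Type _ :=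
  {τ : Finset V // τ ∈ cl G (cn G σ) ∧ τ.card = j}

/-- The (augmented) simplicial boundary map of the link of `σ`, from chains on faces with `j + 1`
vertices to chains on faces with `j` vertices:
`(∂c)(ρ) = ∑_v (-1)^#{u ∈ ρ | u < v} c(ρ ∪ {v})`, the sum being over the vertices `v ∉ ρ` for which
`ρ ∪ {v}` is a face of the link. -/
noncomputable def bdry (k : Type*) [Field k] (G : SimpleGraph V) [DecidableRel G.Adj]
    (σ : Finset V) (j : ℕ) : (LFace G σ (j + 1) → k) →ₗ[k] (LFace G σ j → k) where
  toFun c ρ := ∑ v : V, if h : v ∉ ρ.1 ∧ insert v ρ.1 ∈ cl G (cn G σ) then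
    (-1) ^ (ρ.1.filter (fun u => u < v)).card *
      c ⟨insert v ρ.1, h.2, by rw [card_insert_of_notMem h.1, ρ.2.2]⟩ else 0
  map_add' c c' := by
    funext ρ
    rw [Pi.add_apply, ← Finset.sum_add_distrib]
    refine Finset.sum_congr rfl fun v _ => ?_
    split_ifs
    · rw [Pi.add_apply, mul_add]
    · rw [add_zero]
  map_smul' a c := by
    funext ρ
    rw [Pi.smul_apply, RingHom.id_apply, smul_eq_mul, Finset.mul_sum]
    refine Finset.sum_congr rfl fun v _ => ?_
    split_ifs
    · rw [Pi.smul_apply, smul_eq_mul]; ring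
    · rw [mul_zero]

/-- Dimension of the space of reduced cycles on faces with `j` vertices (for `j = 0` every chain is
a cycle). -/
noncomputable def cycDim (k : Type*) [Field k] (G : SimpleGraph V) [DecidableRel G.Adj]
    (σ : Finset V) : ℕ → ℕ
  | 0 => Module.finrank k (LFace G σ 0 → k)
  | j + 1 => Module.finrank k (LinearMap.ker (bdry k G σ j))

/-- Dimension of the space of boundaries on faces with `j` vertices. -/
noncomputable def bndDim (k : Type*) [Field k] (G : SimpleGraph V) [DecidableRel G.Adj]
    (σ : Finset V) (j : ℕ) : ℕ := Module.finrank k (LinearMap.range (bdry k G σ j))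

/-- Dimension over `k` of the reduced homology of the link of `σ` in degree `j - 1` (the degree of
faces with `j` vertices). -/
noncomputable def bettiLink (k : Type*) [Field k] (G : SimpleGraph V) [DecidableRel G.Adj]
    (σ : Finset V) (j : ℕ) : ℤ := (cycDim k G σ j : ℤ) - bndDim k G σ j

/-- The clique complex of `G` is a homology `(d - 1)`-sphere over the field `k`: the link of every
face `σ` (the empty face included) has the reduced homology of a sphere of dimension
`d - 1 - |σ|`. -/
def IsHomologySphere (k : Type*) [Field k] (G : SimpleGraph V) [DecidableRel G.Adj] (d : ℕ) :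
    Prop :=
  ∀ σ : Finset V, G.IsClique (σ : Set V) → ∀ j : ℕ,
    bettiLink k G σ j = if j + σ.card = d then 1 else 0

variable {k : Type*} [Field k] {G : SimpleGraph V} [DecidableRel G.Adj]

lemma cycDim_zero (σ : Finset V) : cycDim k G σ 0 = 1 := by
  rw [cycDim, Module.finrank_fintype_fun_eq_card, Fintype.card_eq_one_iff]
  refine ⟨⟨∅, by simp [mem_cl], rfl⟩, ?_⟩
  rintro ⟨τ, h1, h2⟩
  exact Subtype.ext (card_eq_zero.1 h2)

lemma finrank_chain (σ : Finset V) (j : ℕ) :
    Module.finrank k (LFace G σ j → k) = ((cl G (cn G σ)).filter (fun τ => τ.card = j)).card := by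
  rw [Module.finrank_fintype_fun_eq_card, Fintype.card_subtype]
  congr 1
  ext τ
  simp

lemma cyc_add_bnd (σ : Finset V) (j : ℕ) :
    cycDim k G σ (j + 1) + bndDim k G σ j = Module.finrank k (LFace G σ (j + 1) → k) := by
  rw [cycDim, bndDim, add_comm]
  exact LinearMap.finrank_range_add_finrank_ker _

lemma euler_link (σ : Finset V) :
    ∑ τ ∈ cl G (cn G σ), (-1 : ℤ) ^ τ.card =
      ∑ j ∈ range (Fintype.card V + 1), (-1 : ℤ) ^ j * bettiLink k G σ j := by
  have h1 : ∑ τ ∈ cl G (cn G σ), (-1 : ℤ) ^ τ.card =
      ∑ j ∈ range (Fintype.card V + 1),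
        (-1 : ℤ) ^ j * (Module.finrank k (LFace G σ j → k) : ℤ) := by
    have hmaps : ∀ τ ∈ cl G (cn G σ), τ.card ∈ range (Fintype.card V + 1) := by
      intro τ _
      rw [mem_range, Nat.lt_succ_iff]
      exact card_le_univ τ
    rw [← Finset.sum_fiberwise_of_maps_to hmaps]
    refine Finset.sum_congr rfl fun j _ => ?_
    rw [finrank_chain]
    rw [Finset.sum_congr rfl (g := fun _ => (-1 : ℤ) ^ j)]
    · rw [Finset.sum_const, nsmul_eq_mul, mul_comm]
    · intro τ hτ
      rw [mem_filter] at hτ
      rw [hτ.2]
  rw [h1]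
  have hlast : bndDim k G σ (Fintype.card V) = 0 := by
    have h := cyc_add_bnd (k := k) (G := G) σ (Fintype.card V)
    have h0 : Module.finrank k (LFace G σ (Fintype.card V + 1) → k) = 0 := by
      rw [finrank_chain, card_eq_zero, filter_eq_empty_iff]
      intro τ _ hτ
      have := card_le_univ τ
      omega
    omega
  have key : ∀ n : ℕ, ∑ j ∈ range (n + 1), (-1 : ℤ) ^ j * bettiLink k G σ j =
      ∑ j ∈ range (n + 1), (-1 : ℤ) ^ j * (Module.finrank k (LFace G σ j → k) : ℤ)
        - (-1 : ℤ) ^ n * bndDim k G σ n := by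
    intro n
    induction n with
    | zero =>
      simp only [zero_add, Finset.sum_range_one, pow_zero, one_mul]
      rw [bettiLink]
      rfl
    | succ n ih =>
      rw [Finset.sum_range_succ, ih, Finset.sum_range_succ (n := n + 1)]
      have h := cyc_add_bnd (k := k) (G := G) σ n
      have h' : (Module.finrank k (LFace G σ (n + 1) → k) : ℤ) =
          cycDim k G σ (n + 1) + bndDim k G σ n := by exact_mod_cast h.symm
      rw [h', bettiLink]
      ring
  rw [key, hlast]
  simp

/-- A clique which is contained in no larger clique has exactly `d` vertices. -/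
lemma card_of_maximal {d : ℕ} (h : IsHomologySphere k G d) {t : Finset V}
    (ht : G.IsClique (t : Set V)) (hmax : cn G t = ∅) : t.card = d := by
  have h0 := h t ht 0
  have hb : bndDim k G t 0 = 0 := by
    have h1 := cyc_add_bnd (k := k) (G := G) t 0
    have h2 : Module.finrank k (LFace G t (0 + 1) → k) = 0 := by
      rw [finrank_chain, card_eq_zero, filter_eq_empty_iff]
      intro τ hτ hc
      rw [mem_cl, hmax] at hτ
      have : τ = ∅ := subset_empty.1 hτ.1
      rw [this] at hc
      simp at hc
    omega
  rw [bettiLink, cycDim_zero, hb] at h0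
  by_contra hne
  rw [if_neg (by omega)] at h0
  norm_num at h0

lemma exists_maximal (s : Finset V) (hs : G.IsClique (s : Set V)) :
    ∃ t : Finset V, s ⊆ t ∧ G.IsClique (t : Set V) ∧ cn G t = ∅ := by
  obtain ⟨t, ht, hmax⟩ := Finset.exists_max_image
    ((cl G univ).filter (fun t => s ⊆ t)) (fun t => t.card)
    ⟨s, by simp [mem_cl, hs]⟩
  rw [mem_filter, mem_cl] at ht
  refine ⟨t, ht.2, ht.1.2, ?_⟩
  rw [eq_empty_iff_forall_notMem]
  intro w hw
  have hwt := not_mem_of_mem_cn hw
  have hc : G.IsClique ((insert w t : Finset V) : Set V) := by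
    have : insert w t = t ∪ {w} := by rw [union_comm]; rfl
    rw [this]
    refine isClique_union_of_subset_cn ht.1.2 (by simp) ?_
    intro x hx
    rw [mem_singleton] at hx
    rw [hx]
    exact hw
  have := hmax (insert w t) (by
    rw [mem_filter, mem_cl]
    exact ⟨⟨subset_univ _, hc⟩, ht.2.trans (subset_insert _ _)⟩)
  rw [card_insert_of_notMem hwt] at this
  omega

/-- **A flag homology sphere is a pure flag Eulerian complex.** -/
theorem IsHomologySphere.eul {d : ℕ} (h : IsHomologySphere k G d) : Eul G d := by
  have hcard : ∀ s : Finset V, G.IsClique (s : Set V) → s.card ≤ d := by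
    intro s hs
    obtain ⟨t, hst, ht, hmax⟩ := exists_maximal s hs
    rw [← card_of_maximal h ht hmax]
    exact card_le_card hst
  refine ⟨hcard, ?_, ?_⟩
  · intro s hs
    obtain ⟨t, hst, ht, hmax⟩ := exists_maximal s hs
    exact ⟨t, hst, ht, card_of_maximal h ht hmax⟩
  · intro s hs
    rw [← sum_cl_superset hs]
    have h1 : ∀ t ∈ cl G (cn G s), (-1 : ℤ) ^ (s ∪ t).card = (-1) ^ s.card * (-1) ^ t.card := by
      intro t ht
      rw [mem_cl] at ht
      rw [card_union_of_disjoint (disjoint_of_subset_cn ht.1), pow_add]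
    rw [Finset.sum_congr rfl h1, ← Finset.mul_sum, euler_link (k := k)]
    have hs' := hcard s hs
    have hmem : d - s.card ∈ range (Fintype.card V + 1) := by
      obtain ⟨t, hst, ht, hmax⟩ := exists_maximal s hs
      have := card_of_maximal h ht hmax
      have := card_le_univ t
      rw [mem_range]
      omega
    rw [Finset.sum_eq_single_of_mem _ hmem]
    · rw [h s hs, if_pos (by omega), mul_one, ← pow_add]
      congr 1
      omega
    · intro j _ hj
      rw [h s hs, if_neg (by omega), mul_zero]

end Pool.Agent.H44
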