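import Mathlib
import Pool.Agent.H44.Basic

/-!
# The clique polynomial of the join of cycles and two isolated points

Module [JG] of MP_cab404_co.
-/

set_option autoImplicit false

namespace Pool.Agent.H44

open Finset Polynomial

section general

variable {V : Type*} [Fintype V] [DecidableEq V] {G : SimpleGraph V} [DecidableRel G.Adj]

/-- the clique polynomial of a join -/
lemma cp_union {A B : Finset V} (h : ∀ x ∈ A, ∀ y ∈ B, G.Adj x y) :
    cp G (A ∪ B) = cp G A * cp G B := by
  have hd : Disjoint A B := by
    rw [Finset.disjoint_left]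
    intro x hA hB
    exact G.irrefl (h x hA x hB)
  unfold cp
  rw [Finset.sum_mul_sum, ← Finset.sum_product']
  refine Finset.sum_bij' (fun s _ => (s ∩ A, s ∩ B)) (fun p _ => p.1 ∪ p.2) ?_ ?_ ?_ ?_ ?_
  · intro s hs
    rw [mem_cl] at hs
    rw [mem_product, mem_cl, mem_cl]
    exact ⟨⟨inter_subset_right, isClique_mono inter_subset_left hs.2⟩,
      ⟨inter_subset_right, isClique_mono inter_subset_left hs.2⟩⟩
  · rintro ⟨s, t⟩ hp
    rw [mem_product, mem_cl, mem_cl] at hp
    rw [mem_cl]
    refine ⟨union_subset_union hp.1.1 hp.2.1, ?_⟩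
    rw [isClique_union]
    exact ⟨hp.1.2, hp.2.2, fun x hx y hy _ => h x (hp.1.1 hx) y (hp.2.1 hy)⟩
  · intro s hs
    rw [mem_cl] at hs
    simp only
    rw [← Finset.inter_union_distrib_left]
    exact inter_eq_left.2 hs.1
  · rintro ⟨s, t⟩ hp
    rw [mem_product, mem_cl, mem_cl] at hp
    refine Prod.ext ?_ ?_
    · simp only
      rw [Finset.union_inter_distrib_right, inter_eq_left.2 hp.1.1,
        (Finset.disjoint_iff_inter_eq_empty.1 (hd.symm.mono_left hp.2.1)), union_empty]
    · simp only
      rw [Finset.union_inter_distrib_right, inter_eq_left.2 hp.2.1,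
        (Finset.disjoint_iff_inter_eq_empty.1 (hd.mono_left hp.1.1)), empty_union]
  · intro s hs
    rw [mem_cl] at hs
    simp only
    rw [← pow_add, ← Finset.card_union_of_disjoint, ← Finset.inter_union_distrib_left,
      inter_eq_left.2 hs.1]
    exact (hd.mono inter_subset_right inter_subset_right)

lemma cp_empty : cp G (∅ : Finset V) = 1 := by
  unfold cp
  have : cl G (∅ : Finset V) = {∅} := by
    ext s
    rw [mem_cl, mem_singleton, Finset.subset_empty]
    constructor
    · exact fun h => h.1
    · rintro rfl; simp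
  rw [this]; simp

/-- the clique polynomial of an iterated join -/
lemma cp_biUnion {ι : Type*} [DecidableEq ι] (s : Finset ι) (A : ι → Finset V)
    (h : ∀ i ∈ s, ∀ j ∈ s, i ≠ j → ∀ x ∈ A i, ∀ y ∈ A j, G.Adj x y) :
    cp G (s.biUnion A) = ∏ i ∈ s, cp G (A i) := by
  induction s using Finset.induction_on with
  | empty => simp [cp_empty]
  | insert i s hi ih =>
    rw [Finset.biUnion_insert, Finset.prod_insert hi, cp_union, ih]
    · intro a ha b hb
      exact h a (mem_insert_of_mem ha) b (mem_insert_of_mem hb)
    · intro x hx y hy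
      obtain ⟨j, hj, hy⟩ := mem_biUnion.1 hy
      refine h i (mem_insert_self _ _) j (mem_insert_of_mem hj) ?_ x hx y hy
      rintro rfl; exact hi hj

/-- the clique polynomial is preserved by embeddings -/
lemma cp_map {W : Type*} [Fintype W] [DecidableEq W] {H : SimpleGraph W} [DecidableRel H.Adj]
    (e : W ↪ V) (he : ∀ x y, G.Adj (e x) (e y) ↔ H.Adj x y) (A : Finset W) :
    cp G (A.map e) = cp H A := by
  unfold cp
  symm
  refine Finset.sum_bij (fun s _ => s.map e) ?_ ?_ ?_ ?_
  · intro s hs
    rw [mem_cl] at hs ⊢
    refine ⟨map_subset_map.2 hs.1, ?_⟩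
    intro x hx y hy hxy
    simp only [coe_map, Set.mem_image, mem_coe] at hx hy
    obtain ⟨x, hx, rfl⟩ := hx
    obtain ⟨y, hy, rfl⟩ := hy
    rw [he]
    exact hs.2 hx hy (fun h => hxy (by rw [h]))
  · intro s _ t _ h
    exact Finset.map_injective e h
  · intro t ht
    rw [mem_cl] at ht
    obtain ⟨s, hs, rfl⟩ := subset_map_iff.1 ht.1
    refine ⟨s, ?_, rfl⟩
    rw [mem_cl]
    refine ⟨hs, fun x hx y hy hxy => ?_⟩
    rw [← he]
    refine ht.2 ?_ ?_ (fun h => hxy (e.injective h))
    · simpa using hx
    · simpa using hy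
  · intro s _
    rw [card_map]

end general

/-- the clique polynomial of a cycle -/
lemma cp_cycleGraph (m : ℕ) (hm : 4 ≤ m) [DecidableRel (SimpleGraph.cycleGraph m).Adj] :
    cp (SimpleGraph.cycleGraph m) univ = 1 + (m : ℤ[X]) * (X * (1 + X)) := by
  obtain ⟨n, rfl⟩ : ∃ n, m = n + 4 := ⟨m - 4, by omega⟩
  have hone : (1 : Fin (n + 4)) ≠ 0 := by
    intro h; simp at h
  have htwo : (1 : Fin (n + 4)) + 1 ≠ 0 := by
    intro h
    have := congrArg Fin.val h
    simp [Fin.val_add] at this
    rw [Nat.mod_eq_of_lt (by omega)] at this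
    omega
  have hthree : (1 : Fin (n + 4)) + 1 + 1 ≠ 0 := by
    intro h
    have := congrArg Fin.val h
    simp [Fin.val_add] at this
    rw [Nat.mod_eq_of_lt (by omega)] at this
    omega
  have hadj : ∀ u v : Fin (n + 4), (SimpleGraph.cycleGraph (n + 4)).Adj u v ↔
      u = v + 1 ∨ v = u + 1 := by
    intro u v
    rw [SimpleGraph.cycleGraph_adj, sub_eq_iff_eq_add, sub_eq_iff_eq_add, add_comm 1 v,
      add_comm 1 u]
  -- the list of all cliques
  have hcl : cl (SimpleGraph.cycleGraph (n + 4)) univ =
      {∅} ∪ (univ.image fun i : Fin (n + 4) => ({i} : Finset (Fin (n + 4)))) ∪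
      (univ.image fun i : Fin (n + 4) => ({i, i + 1} : Finset (Fin (n + 4)))) := by
    ext s
    rw [mem_cl]
    simp only [subset_univ, true_and, mem_union, mem_singleton, mem_image, mem_univ]
    constructor
    · intro hs
      rcases s.eq_empty_or_nonempty with rfl | ⟨i, hi⟩
      · exact Or.inl (Or.inl rfl)
      · by_cases h1 : s = {i}
        · exact Or.inl (Or.inr ⟨i, h1.symm⟩)
        · right
          obtain ⟨j, hj, hij⟩ : ∃ j ∈ s, j ≠ i := by
            by_contra hcon
            push Not at hcon
            refine h1 (eq_singleton_iff_unique_mem.2 ⟨hi, hcon⟩)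
          -- orient
          obtain ⟨a, ha, hb⟩ : ∃ a, a ∈ s ∧ a + 1 ∈ s := by
            rcases (hadj j i).1 (hs hj hi hij) with h | h
            · exact ⟨i, hi, h ▸ hj⟩
            · exact ⟨j, hj, h ▸ hi⟩
          refine ⟨a, ?_⟩
          ext c
          simp only [mem_insert, mem_singleton]
          constructor
          · rintro (rfl | rfl)
            · exact ha
            · exact hb
          · intro hc
            by_contra hcon
            push Not at hcon
            rcases (hadj c a).1 (hs hc ha hcon.1) with h | h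
            · exact hcon.2 h
            · -- a = c + 1
              rcases (hadj c (a + 1)).1 (hs hc hb hcon.2) with h' | h'
              · subst h
                apply hthree
                have : c + (1 + 1 + 1) = c := by
                  rw [← add_assoc, ← add_assoc]
                  exact h'.symm
                exact add_eq_left.1 this
              · subst h
                apply hone
                have : c + 1 + 1 = c + 1 := h'
                exact add_eq_left.1 this
    · rintro ((rfl | ⟨i, rfl⟩) | ⟨i, rfl⟩)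
      · simp
      · simp
      · intro x hx y hy hxy
        simp only [coe_insert, coe_singleton, Set.mem_insert_iff, Set.mem_singleton_iff] at hx hy
        rw [hadj]
        rcases hx with rfl | rfl <;> rcases hy with rfl | rfl
        · exact absurd rfl hxy
        · exact Or.inr rfl
        · exact Or.inl rfl
        · exact absurd rfl hxy
  unfold cp
  rw [hcl, Finset.sum_union, Finset.sum_union, Finset.sum_singleton, Finset.sum_image,
    Finset.sum_image]
  · have e1 : ∀ i : Fin (n + 4), ({i} : Finset (Fin (n + 4))).card = 1 := fun i => card_singleton i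
    have e2 : ∀ i : Fin (n + 4), ({i, i + 1} : Finset (Fin (n + 4))).card = 2 := fun i => by
      rw [card_pair]
      intro h
      apply hone
      simpa using h.symm
    simp only [e1, e2, Finset.sum_const, card_univ, Fintype.card_fin, nsmul_eq_mul, card_empty,
      pow_zero, pow_one]
    ring
  · intro i _ j _ h
    by_contra hne
    simp only at h
    have h1 : i ∈ ({j, j + 1} : Finset (Fin (n + 4))) := by rw [← h]; simp
    have h2 : j ∈ ({i, i + 1} : Finset (Fin (n + 4))) := by rw [h]; simp
    simp only [mem_insert, mem_singleton] at h1 h2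
    have h1' := h1.resolve_left hne
    have h2' := h2.resolve_left (fun h => hne h.symm)
    apply htwo
    have : j + (1 + 1) = j := by
      rw [← add_assoc, ← h1', ← h2']
    exact add_eq_left.1 this
  · intro i _ j _ h
    exact Finset.singleton_injective h
  · rw [Finset.disjoint_left]
    intro s h1 h2
    rw [mem_singleton] at h1
    subst h1
    obtain ⟨i, _, hi⟩ := mem_image.1 h2
    exact Finset.singleton_ne_empty i hi
  · rw [Finset.disjoint_left]
    intro s h1 h2
    obtain ⟨i, _, hi⟩ := mem_image.1 h2
    have hc : s.card = 2 := by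
      rw [← hi, card_pair]
      intro h
      apply hone
      simpa using h.symm
    rcases mem_union.1 h1 with h | h
    · rw [mem_singleton] at h; subst h; simp at hc
    · obtain ⟨j, _, hj⟩ := mem_image.1 h
      rw [← hj] at hc; simp at hc

/-- The graph `J_r^*(n)`: the join of the cycles `C_{m j}` and of two non-adjacent vertices. Two
vertices on cycles are adjacent iff they lie on different cycles or are adjacent on their common
cycle; the two extra vertices are adjacent to all vertices on the cycles. -/
def JG {r : ℕ} (m : Fin r → ℕ) : SimpleGraph ((Σ j : Fin r, Fin (m j)) ⊕ Fin 2) where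
  Adj x y := match x, y with
    | .inl a, .inl b => a.1 ≠ b.1 ∨ ∃ h : a.1 = b.1, (SimpleGraph.cycleGraph (m b.1)).Adj (h ▸ a.2) b.2
    | .inl _, .inr _ => True
    | .inr _, .inl _ => True
    | .inr _, .inr _ => False
  symm := ⟨by
    rintro (⟨i, a⟩ | a) (⟨j, b⟩ | b) h
    · simp only at h ⊢
      by_cases hij : i = j
      · subst hij
        right
        refine ⟨rfl, ?_⟩
        rcases h with h | ⟨_, h⟩
        · exact absurd rfl h
        · exact h.symm
      · exact Or.inl (fun h => hij h.symm)
    · trivial
    · trivial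
    · exact h⟩
  loopless := ⟨by
    rintro (⟨i, a⟩ | a) h
    · simp only at h
      rcases h with h | ⟨_, h⟩
      · exact absurd rfl h
      · exact (SimpleGraph.cycleGraph (m i)).irrefl h
    · exact h⟩

/-- the clique polynomial of `J_r^*(n)` -/
theorem cp_JG {r : ℕ} (m : Fin r → ℕ) (hm : ∀ j, 4 ≤ m j) [DecidableRel (JG m).Adj] :
    cp (JG m) univ = (1 + 2 * X) * ∏ j, (1 + (m j : ℤ[X]) * (X * (1 + X))) := by
  classical
  let eL : (Σ j : Fin r, Fin (m j)) ↪ (Σ j : Fin r, Fin (m j)) ⊕ Fin 2 := Function.Embedding.inl
  let eR : Fin 2 ↪ (Σ j : Fin r, Fin (m j)) ⊕ Fin 2 := Function.Embedding.inr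
  let e : ∀ j : Fin r, Fin (m j) ↪ (Σ j : Fin r, Fin (m j)) ⊕ Fin 2 := fun j =>
    (Function.Embedding.sigmaMk j).trans eL
  have hsplit : (univ : Finset ((Σ j : Fin r, Fin (m j)) ⊕ Fin 2)) =
      (univ : Finset (Fin 2)).map eR ∪ (univ : Finset (Fin r)).biUnion fun j => univ.map (e j) := by
    ext x
    simp only [mem_univ, mem_union, mem_map, mem_biUnion, true_and, true_iff]
    rcases x with ⟨j, a⟩ | a
    · exact Or.inr ⟨j, a, rfl⟩
    · exact Or.inl ⟨a, rfl⟩
  rw [hsplit, cp_union, cp_biUnion]
  · congr 1
    · rw [cp_map (H := (⊥ : SimpleGraph (Fin 2))) eR]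
      · have hb : cl (⊥ : SimpleGraph (Fin 2)) univ = {∅, {0}, {1}} := by decide
        unfold cp
        rw [hb, Finset.sum_insert (by decide), Finset.sum_insert (by decide), Finset.sum_singleton]
        simp only [card_empty, card_singleton, pow_zero, pow_one]
        ring
      · intro x y
        simp [JG, eR]
    · refine Finset.prod_congr rfl fun j _ => ?_
      rw [cp_map (H := SimpleGraph.cycleGraph (m j)) (e j), cp_cycleGraph (m j) (hm j)]
      intro x y
      simp [JG, e, eL]
  · intro i _ j _ hij x hx y hy
    obtain ⟨a, _, rfl⟩ := mem_map.1 hx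
    obtain ⟨b, _, rfl⟩ := mem_map.1 hy
    exact Or.inl hij
  · intro x hx y hy
    obtain ⟨a, _, rfl⟩ := mem_map.1 hx
    obtain ⟨j, _, hy⟩ := mem_biUnion.1 hy
    obtain ⟨b, _, rfl⟩ := mem_map.1 hy
    trivial

end Pool.Agent.H44
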