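import Mathlib

/-!
# Smoothing inequality for elementary symmetric polynomials of natural numbers

Module [SM] of MP_cab404_co.
-/

set_option autoImplicit false

namespace Pool.Agent.H44

open Finset

namespace Smooth

theorem esymm_cons (x : ℕ) (s : Multiset ℕ) (n : ℕ) :
    (x ::ₘ s).esymm (n + 1) = s.esymm (n + 1) + x * s.esymm n := by
  unfold Multiset.esymm
  rw [Multiset.powersetCard_cons, Multiset.map_add, Multiset.sum_add, Multiset.map_map,
    ← Multiset.sum_map_mul_left]
  congr 2
  refine Multiset.map_congr rfl fun t _ => ?_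
  simp

theorem esymm_zero' (s : Multiset ℕ) : s.esymm 0 = 1 := by
  simp [Multiset.esymm]

theorem esymm_step (x y : ℕ) (h : y ≤ x) (s : Multiset ℕ) (n : ℕ) :
    ((x + 2) ::ₘ y ::ₘ s).esymm n ≤ ((x + 1) ::ₘ (y + 1) ::ₘ s).esymm n := by
  match n with
  | 0 => simp [esymm_zero']
  | 1 =>
    rw [esymm_cons, esymm_cons, esymm_cons, esymm_cons]
    simp only [esymm_zero']
    omega
  | n + 2 =>
    rw [esymm_cons, esymm_cons, esymm_cons, esymm_cons, esymm_cons, esymm_cons]
    have : (x + 2) * y ≤ (x + 1) * (y + 1) := by nlinarith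
    nlinarith [Nat.mul_le_mul_right (s.esymm n) this]

/-- balanced multisets are determined by their cardinality and sum -/
theorem balanced_sum (s : Multiset ℕ) (hs : ∀ x ∈ s, ∀ y ∈ s, x ≤ y + 1) (h0 : s ≠ 0) :
    s = Multiset.replicate (s.card - s.sum % s.card) (s.sum / s.card) +
      Multiset.replicate (s.sum % s.card) (s.sum / s.card + 1) := by
  obtain ⟨q, hq, hmin⟩ : ∃ q ∈ s, ∀ x ∈ s, q ≤ x := by
    have hne : s.toFinset.Nonempty := by
      rwa [Multiset.toFinset_nonempty]
    refine ⟨s.toFinset.min' hne, Multiset.mem_toFinset.1 (s.toFinset.min'_mem hne), fun x hx =>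
      s.toFinset.min'_le x (Multiset.mem_toFinset.2 hx)⟩
  have hval : ∀ x ∈ s, x = q ∨ x = q + 1 := fun x hx => by
    have := hmin x hx; have := hs x hx q hq; omega
  have hdec : ∀ t : Multiset ℕ, (∀ x ∈ t, x = q ∨ x = q + 1) →
      t = Multiset.replicate (t.count q) q + Multiset.replicate (t.count (q + 1)) (q + 1) := by
    intro t ht
    ext x
    rw [Multiset.count_add, Multiset.count_replicate, Multiset.count_replicate]
    by_cases hx : x ∈ t
    · rcases ht x hx with h | h
      · subst h; simp
      · subst h; simp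
    · have h0 : t.count x = 0 := Multiset.count_eq_zero_of_notMem hx
      rw [h0]
      split_ifs with h1 h2 h2
      · omega
      · subst h1; omega
      · subst h2; omega
      · rfl
  have hs' := hdec s hval
  set A := s.count q with hA
  set B := s.count (q + 1) with hB
  have hApos : 0 < A := Multiset.count_pos.2 hq
  have hcard : s.card = A + B := by
    conv_lhs => rw [hs']
    simp
  have hsum : s.sum = q * (A + B) + B := by
    conv_lhs => rw [hs']
    simp
    ring
  have hdiv : s.sum / s.card = q := by
    rw [hsum, hcard]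
    rw [Nat.div_eq_iff (by omega)]
    constructor
    · nlinarith
    · omega
  have hmod : s.sum % s.card = B := by
    rw [hsum, hcard]
    exact Nat.mul_add_mod_of_lt (by omega)
  rw [hdiv, hmod, hcard, Nat.add_sub_cancel]
  exact hs'

theorem esymm_le (n : ℕ) (N : ℕ) : ∀ (s m : Multiset ℕ), (s.map (fun x => x * x)).sum ≤ N →
    s.card = m.card → s.sum = m.sum → (∀ x ∈ m, ∀ y ∈ m, x ≤ y + 1) →
    s.esymm n ≤ m.esymm n := by
  induction N using Nat.strong_induction_on with
  | _ N ih =>
    intro s m hN hc hsum hm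
    by_cases hb : ∀ x ∈ s, ∀ y ∈ s, x ≤ y + 1
    · have : s = m := by
        by_cases h0 : s = 0
        · subst h0
          rw [Multiset.card_zero] at hc
          exact (Multiset.card_eq_zero.1 hc.symm).symm
        · have h1 : m ≠ 0 := by
            rintro rfl
            exact h0 (Multiset.card_eq_zero.1 (by simpa using hc))
          rw [balanced_sum s hb h0, balanced_sum m hm h1, hc, hsum]
      rw [this]
    · push Not at hb
      obtain ⟨x, hx, y, hy, hxy⟩ := hb
      obtain ⟨u, rfl⟩ := Multiset.exists_cons_of_mem hx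
      have hyu : y ∈ u := by
        rcases Multiset.mem_cons.1 hy with h | h
        · omega
        · exact h
      obtain ⟨t, rfl⟩ := Multiset.exists_cons_of_mem hyu
      obtain ⟨x', rfl⟩ : ∃ x', x = x' + 2 := ⟨x - 2, by omega⟩
      refine (esymm_step x' y (by omega) t n).trans ?_
      have hlt : (((x' + 1) ::ₘ (y + 1) ::ₘ t).map (fun x => x * x)).sum <
          (((x' + 2) ::ₘ y ::ₘ t).map (fun x => x * x)).sum := by
        simp only [Multiset.map_cons, Multiset.sum_cons]
        nlinarith
      refine ih _ (lt_of_lt_of_le hlt hN) _ m le_rfl ?_ ?_ hm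
      · rw [← hc]; simp
      · rw [← hsum]; simp only [Multiset.sum_cons]; ring

end Smooth

/-- The smoothing inequality: among natural vectors with a given sum, the balanced one maximises all
elementary symmetric polynomials. -/
theorem esymm_le_of_balanced {r : ℕ} (l : ℕ) (a m : Fin r → ℕ) (hs : ∑ j, a j = ∑ j, m j)
    (hm : ∀ j k, m j ≤ m k + 1) :
    ∑ T ∈ powersetCard l univ, ∏ j ∈ T, a j ≤ ∑ T ∈ powersetCard l univ, ∏ j ∈ T, m j := by
  rw [← Finset.esymm_map_val, ← Finset.esymm_map_val]
  refine Smooth.esymm_le l _ _ _ le_rfl ?_ ?_ ?_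
  · simp
  · exact hs
  · intro x hx y hy
    obtain ⟨j, _, rfl⟩ := Multiset.mem_map.1 hx
    obtain ⟨k, _, rfl⟩ := Multiset.mem_map.1 hy
    exact hm j k

end Pool.Agent.H44
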